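import Mathlib

/-!
# Period form of the moduli spaces of polarised manifolds of K3^[n] type

Definitions used in the hand-in `Pool.Agent.Results.MP_eb387e_ag.PeriodInvolution`.
-/

namespace Pool.Agent.Helper93.EB

/-- The complexified second cohomology of a manifold of K3^[n] type: three hyperbolic planes,
two copies of `E₈(-1)` and one further coordinate (that of the class `δ`). -/
abbrev V : Type := (Fin 3 → ℂ × ℂ) × (Fin 2 → Fin 8 → ℂ) × ℂ

/-- The additive group structure of `V` (coordinatewise). -/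
noncomputable instance (priority := 2000) instV : AddCommGroup V := inferInstance

/-- The complex vector space structure of `V` (coordinatewise). -/
noncomputable instance (priority := 2000) instMV : Module ℂ V := inferInstance

/-- The Beauville–Bogomolov–Fujiki form `U ⊕ U ⊕ U ⊕ E₈(-1) ⊕ E₈(-1) ⊕ ⟨-2(n-1)⟩`,
extended bilinearly. -/
noncomputable def bbf (n : ℕ) (x y : V) : ℂ :=
  (∑ i, ((x.1 i).1 * (y.1 i).2 + (x.1 i).2 * (y.1 i).1))
    - (∑ j, ∑ a, ∑ b, ((CartanMatrix.E₈ a b : ℤ) : ℂ) * (x.2.1 j a * y.2.1 j b))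
    - 2 * ((n : ℂ) - 1) * (x.2.2 * y.2.2)

/-- The integral lattice `H²(Y, ℤ)`: all coordinates are integers. -/
def Lam : Set V :=
  {x | (∀ i, (∃ a : ℤ, (x.1 i).1 = a) ∧ ∃ b : ℤ, (x.1 i).2 = b) ∧
    (∀ j a, ∃ c : ℤ, x.2.1 j a = c) ∧ ∃ d : ℤ, x.2.2 = d}

/-- The sublattice `L = H²(S, ℤ)` of classes with `δ`-coordinate zero (the K3 lattice). -/
def LamK3 : Set V := {x | x ∈ Lam ∧ x.2.2 = 0}

/-- The class `δ`, with `δ² = -2(n-1)`. -/
def delta : V := (0, 0, 1)

/-- The primitive class `h` of the K3 lattice with `h² = 2 r k₀`. -/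
noncomputable def hvec (r k₀ : ℕ) : V := (Pi.single 0 (1, (r : ℂ) * k₀), 0, 0)

/-- The polarisation `w = γ (h - (r/2) δ)`; so `w = h - r' δ` if `γ = 1`, `r = 2 r'`, and
`w = 2 h - r δ` if `γ = 2`. -/
noncomputable def wvec (γ r k₀ : ℕ) : V :=
  (γ : ℂ) • (hvec r k₀ - ((r : ℂ) / 2) • delta)

/-- The lattice `H²(X, ℤ)` inside `H²(Y, ℚ)`: the image of `v^⊥ / v ⊕ ℤ δ` under the rational
isometry `(a, z, b) ↦ z - (a / r) h`, `δ ↦ δ`.  Here `v = (r, h, k₀)` is the isotropic Mukai vector
on the K3 lattice, `(a, z, b)` runs through the integral Mukai vectors orthogonal to `v`, that is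
`z · h - a k₀ - b r = 0`. -/
def LamX (n r k₀ : ℕ) : Set V :=
  {y | ∃ a b c : ℤ, ∃ z ∈ LamK3, bbf n z (hvec r k₀) - a * k₀ - b * r = 0 ∧
    y = z - ((a : ℂ) / r) • hvec r k₀ + (c : ℂ) • delta}

/-- The dual lattice of `M` in `V`. -/
def dual (n : ℕ) (M : Set V) : Set V := {y | ∀ x ∈ M, ∃ a : ℤ, bbf n y x = a}

/-- `g` is a `ℂ`-linear automorphism of `V` that preserves the form. -/
structure IsIsometry (n : ℕ) (g : V → V) : Prop where
  add : ∀ x y, g (x + y) = g x + g y
  smul : ∀ (c : ℂ) x, g (c • x) = c • g x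
  bij : Function.Bijective g
  isom : ∀ x y, bbf n (g x) (g y) = bbf n x y

/-- Isometries of the lattice that fix `w` and act as `1` or as `-1` on the discriminant group
(Markman's description of the monodromy group; the orientation condition is automatic for
Hodge isometries that fix `w`). -/
structure IsMon (n : ℕ) (w : V) (g : V → V) : Prop where
  isometry : IsIsometry n g
  fix : g w = w
  map : g '' Lam = Lam
  disc : (∀ y ∈ dual n Lam, g y - y ∈ Lam) ∨ (∀ y ∈ dual n Lam, g y + y ∈ Lam)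

/-- The class `δ / (2n-2)`, which generates the discriminant group of the lattice. -/
noncomputable def deltaDual (n : ℕ) : V := (1 / (2 * ((n : ℂ) - 1))) • delta

/-- Markings of `H²(X, ℤ)`: isometries `g` from the standard lattice onto `LamX` that fix `w` and
carry the class of `δ / (2n-2)` in one discriminant group to `±` the class of `δ / (2n-2)` in
the other. -/
structure IsMarking (n r k₀ : ℕ) (w : V) (g : V → V) : Prop where
  isometry : IsIsometry n g
  fix : g w = w
  map : g '' Lam = LamX n r k₀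
  disc : g (deltaDual n) - deltaDual n ∈ LamX n r k₀ ∨ g (deltaDual n) + deltaDual n ∈ LamX n r k₀

/-- Periods: vectors `σ` orthogonal to `w` with `σ² = 0` and `σ · conj σ > 0`. -/
def periodDomain (n : ℕ) (w : V) : Set V :=
  {σ | bbf n σ σ = 0 ∧ 0 < (bbf n σ (star σ)).re ∧ bbf n σ w = 0}

/-- Two periods are equivalent if an element of the monodromy group that fixes `w` carries one
to a multiple of the other. -/
def periodRel (n : ℕ) (w : V) (σ τ : periodDomain n w) : Prop :=
  ∃ g, IsMon n w g ∧ ∃ c : ℂ, c ≠ 0 ∧ (τ : V) = c • g (σ : V)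

/-- `w` is a primitive integral class with `w² = 2m` and divisibility `γ`. -/
def IsPolarisation (n γ m : ℕ) (w : V) : Prop :=
  w ∈ Lam ∧ (∀ (t : ℕ) (x : V), x ∈ Lam → w = (t : ℂ) • x → t = 1) ∧ bbf n w w = 2 * m ∧
    (∀ x ∈ Lam, ∃ a : ℤ, bbf n w x = γ * a) ∧ ∃ x ∈ Lam, bbf n w x = γ

/-- The Picard lattice of the period `σ` on the lattice `M` is contained in `ℤ w`. -/
def PicardIn (n : ℕ) (w : V) (M : Set V) (σ : V) : Prop :=
  ∀ x ∈ M, bbf n x σ = 0 → ∃ a : ℤ, x = (a : ℂ) • w

/-- `g` preserves the period domain, `g` normalises the monodromy group that fixes `w`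
(if `f ∘ g = g ∘ f'` then `f` is in the group if and only if `f'` is), and the square of `g` lies in
this group. -/
def Normalises (n : ℕ) (w : V) (g : V → V) : Prop :=
  (∀ σ, g σ ∈ periodDomain n w ↔ σ ∈ periodDomain n w) ∧
    (∀ f f' : V → V, f ∘ g = g ∘ f' → (IsMon n w f ↔ IsMon n w f')) ∧ IsMon n w (g ∘ g)

/-- The period space `D_w / Γ_w` with the quotient topology. -/
abbrev PeriodSpace (n : ℕ) (w : V) : Type := Quot (periodRel n w)

/-- `μ` is the self-map of the period space that sends the period of `(Y, w)` to the period of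
`(X, w)`: the lattice `H²(X, ℤ) = LamX` carries the same period vector `σ`, and a marking `g` of
this lattice turns it into the period `τ` with `g τ = σ`.  The condition is required for every
marking `g` and every representative `σ`. -/
def IsPeriodMap (n r k₀ : ℕ) (w : V) (μ : PeriodSpace n w → PeriodSpace n w) : Prop :=
  ∀ g, IsMarking n r k₀ w g → ∀ σ τ : periodDomain n w, g (τ : V) = σ →
    μ (Quot.mk _ σ) = Quot.mk _ τ

/-- The numerical data of the problem.  The numbers `r`, `k₀` are those of the Mukai vector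
`(r, h, k₀)`: if `γ = 1` then `r = 2 r'` and `k₀ = k`; if `γ = 2` then `m = r k` and
`4 k₀ = k + r (n-1)`. -/
def IsData (n γ m r k₀ : ℕ) : Prop :=
  2 ≤ n ∧ 1 ≤ m ∧
    ((γ = 1 ∧ ∃ r' : ℕ, 1 ≤ r' ∧ 1 ≤ k₀ ∧ Nat.gcd k₀ (2 * r') = 1 ∧ r = 2 * r' ∧
        (m : ℤ) = r' * (2 * k₀ - r' * ((n : ℤ) - 1))) ∨
      (γ = 2 ∧ (n + m) % 4 = 1 ∧ Odd r ∧ 3 ≤ r ∧ ∃ k : ℕ, m = r * k ∧ Nat.gcd r k = 1 ∧
        (4 * k₀ : ℤ) = k + r * ((n : ℤ) - 1)))

end Pool.Agent.Helper93.EB
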