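import Mathlib
import Pool.Agent.Helper93.EB.Defs

/-! Basic properties of the form and of the lattices. -/

namespace Pool.Agent.Helper93.EB

theorem bbf_add_left (n : ℕ) (x x' y : V) : bbf n (x + x') y = bbf n x y + bbf n x' y := by
  simp only [bbf, Prod.fst_add, Prod.snd_add, Pi.add_apply, add_mul, mul_add, Finset.sum_add_distrib]
  ring

theorem bbf_smul_left (n : ℕ) (c : ℂ) (x y : V) : bbf n (c • x) y = c * bbf n x y := by
  simp only [bbf, Prod.smul_fst, Prod.smul_snd, Pi.smul_apply, smul_eq_mul, mul_sub, Finset.mul_sum]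
  congr 1
  · congr 1
    · refine Finset.sum_congr rfl fun i _ => ?_
      ring
    · refine Finset.sum_congr rfl fun i _ => Finset.sum_congr rfl fun a _ =>
        Finset.sum_congr rfl fun b _ => ?_
      ring
  · ring

theorem E8_symm (a b : Fin 8) : CartanMatrix.E₈ a b = CartanMatrix.E₈ b a := by
  fin_cases a <;> fin_cases b <;> rfl

theorem bbf_comm (n : ℕ) (x y : V) : bbf n x y = bbf n y x := by
  unfold bbf
  congr 1
  · congr 1
    · refine Finset.sum_congr rfl fun i _ => ?_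
      ring
    · refine Finset.sum_congr rfl fun i _ => ?_
      rw [Finset.sum_comm]
      refine Finset.sum_congr rfl fun a _ => Finset.sum_congr rfl fun b _ => ?_
      rw [E8_symm b a]; ring
  · ring

theorem bbf_add_right (n : ℕ) (x y y' : V) : bbf n x (y + y') = bbf n x y + bbf n x y' := by
  rw [bbf_comm, bbf_add_left, bbf_comm n y, bbf_comm n y']

theorem bbf_smul_right (n : ℕ) (c : ℂ) (x y : V) : bbf n x (c • y) = c * bbf n x y := by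
  rw [bbf_comm, bbf_smul_left, bbf_comm n y]

theorem bbf_neg_left (n : ℕ) (x y : V) : bbf n (-x) y = - bbf n x y := by
  rw [← neg_one_smul ℂ x, bbf_smul_left]; ring

theorem bbf_neg_right (n : ℕ) (x y : V) : bbf n x (-y) = - bbf n x y := by
  rw [bbf_comm, bbf_neg_left, bbf_comm]

theorem bbf_sub_left (n : ℕ) (x x' y : V) : bbf n (x - x') y = bbf n x y - bbf n x' y := by
  rw [sub_eq_add_neg, bbf_add_left, bbf_neg_left]; ring

theorem bbf_sub_right (n : ℕ) (x y y' : V) : bbf n x (y - y') = bbf n x y - bbf n x y' := by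
  rw [bbf_comm, bbf_sub_left, bbf_comm n y, bbf_comm n y']

/-- the lattice is closed under addition etc. -/
theorem Lam_add {x y : V} (hx : x ∈ Lam) (hy : y ∈ Lam) : x + y ∈ Lam := by
  obtain ⟨h1, h2, h3⟩ := hx
  obtain ⟨k1, k2, k3⟩ := hy
  refine ⟨fun i => ⟨?_, ?_⟩, fun j a => ?_, ?_⟩
  · obtain ⟨a, ha⟩ := (h1 i).1
    obtain ⟨b, hb⟩ := (k1 i).1
    exact ⟨a + b, by simp [ha, hb]⟩
  · obtain ⟨a, ha⟩ := (h1 i).2
    obtain ⟨b, hb⟩ := (k1 i).2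
    exact ⟨a + b, by simp [ha, hb]⟩
  · obtain ⟨a, ha⟩ := h2 j a
    obtain ⟨b, hb⟩ := k2 j ‹_›
    exact ⟨a + b, by simp [ha, hb]⟩
  · obtain ⟨a, ha⟩ := h3
    obtain ⟨b, hb⟩ := k3
    exact ⟨a + b, by simp [ha, hb]⟩

theorem Lam_zsmul {x : V} (c : ℤ) (hx : x ∈ Lam) : (c : ℂ) • x ∈ Lam := by
  obtain ⟨h1, h2, h3⟩ := hx
  refine ⟨fun i => ⟨?_, ?_⟩, fun j a => ?_, ?_⟩
  · obtain ⟨a, ha⟩ := (h1 i).1
    exact ⟨c * a, by simp [ha]⟩
  · obtain ⟨a, ha⟩ := (h1 i).2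
    exact ⟨c * a, by simp [ha]⟩
  · obtain ⟨a, ha⟩ := h2 j a
    exact ⟨c * a, by simp [ha]⟩
  · obtain ⟨a, ha⟩ := h3
    exact ⟨c * a, by simp [ha]⟩

theorem Lam_neg {x : V} (hx : x ∈ Lam) : -x ∈ Lam := by
  have := Lam_zsmul (-1) hx
  simpa using this

theorem Lam_sub {x y : V} (hx : x ∈ Lam) (hy : y ∈ Lam) : x - y ∈ Lam := by
  rw [sub_eq_add_neg]; exact Lam_add hx (Lam_neg hy)

theorem delta_mem : delta ∈ Lam := by
  refine ⟨fun i => ⟨⟨0, by simp [delta]⟩, ⟨0, by simp [delta]⟩⟩, fun j a => ⟨0, by simp [delta]⟩,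
    ⟨1, by simp [delta]⟩⟩

theorem hvec_mem (r k₀ : ℕ) : hvec r k₀ ∈ Lam := by
  refine ⟨fun i => ?_, fun j a => ⟨0, by simp [hvec]⟩, ⟨0, by simp [hvec]⟩⟩
  by_cases hi : i = 0
  · subst hi
    exact ⟨⟨1, by simp [hvec]⟩, ⟨r * k₀, by simp [hvec]⟩⟩
  · exact ⟨⟨0, by simp [hvec, hi]⟩, ⟨0, by simp [hvec, hi]⟩⟩

/-- integrality of the form -/
theorem bbf_int (n : ℕ) {x y : V} (hx : x ∈ Lam) (hy : y ∈ Lam) : ∃ a : ℤ, bbf n x y = a := by
  obtain ⟨h1, h2, h3⟩ := hx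
  obtain ⟨k1, k2, k3⟩ := hy
  choose p1 hp1 using fun i => (h1 i).1
  choose p2 hp2 using fun i => (h1 i).2
  choose p3 hp3 using h2
  obtain ⟨p4, hp4⟩ := h3
  choose q1 hq1 using fun i => (k1 i).1
  choose q2 hq2 using fun i => (k1 i).2
  choose q3 hq3 using k2
  obtain ⟨q4, hq4⟩ := k3
  refine ⟨(∑ i, (p1 i * q2 i + p2 i * q1 i))
    - (∑ j, ∑ a, ∑ b, (CartanMatrix.E₈ a b) * (p3 j a * q3 j b))
    - 2 * ((n : ℤ) - 1) * (p4 * q4), ?_⟩
  unfold bbf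
  simp only [hp1, hp2, hp3, hp4, hq1, hq2, hq3, hq4]
  push_cast
  ring

theorem E8_diag (a : Fin 8) : CartanMatrix.E₈ a a = 2 := by
  revert a; decide

/-- the form is even -/
theorem bbf_even (n : ℕ) {x : V} (hx : x ∈ Lam) : ∃ a : ℤ, bbf n x x = 2 * a := by
  obtain ⟨h1, h2, h3⟩ := hx
  choose p1 hp1 using fun i => (h1 i).1
  choose p2 hp2 using fun i => (h1 i).2
  choose p3 hp3 using h2
  obtain ⟨p4, hp4⟩ := h3
  have hE : ∀ u : Fin 8 → ℤ, ∃ t : ℤ, ∑ a, ∑ b, (CartanMatrix.E₈ a b) * (u a * u b) = 2 * t := by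
    intro u
    refine ⟨(u 0)^2 + (u 1)^2 + (u 2)^2 + (u 3)^2 + (u 4)^2 + (u 5)^2 + (u 6)^2 + (u 7)^2
      - u 0 * u 2 - u 1 * u 3 - u 2 * u 3 - u 3 * u 4 - u 4 * u 5 - u 5 * u 6 - u 6 * u 7, ?_⟩
    simp [Fin.sum_univ_eight, CartanMatrix.E₈]
    ring
  choose t ht using fun j => hE (p3 j)
  refine ⟨(∑ i, (p1 i * p2 i)) - (∑ j, t j) - ((n : ℤ) - 1) * (p4 * p4), ?_⟩
  have h0 : bbf n x x = (((∑ i, (p1 i * p2 i + p2 i * p1 i))
    - (∑ j, ∑ a, ∑ b, (CartanMatrix.E₈ a b) * (p3 j a * p3 j b))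
    - 2 * ((n : ℤ) - 1) * (p4 * p4) : ℤ) : ℂ) := by
    unfold bbf
    simp only [hp1, hp2, hp3, hp4]
    push_cast
    ring
  rw [h0]
  simp only [ht, ← Finset.mul_sum]
  have h1 : (∑ i, (p1 i * p2 i + p2 i * p1 i)) = 2 * ∑ i, p1 i * p2 i := by
    rw [Finset.mul_sum]
    refine Finset.sum_congr rfl fun i _ => by ring
  rw [h1]
  push_cast
  ring

theorem bbf_delta (n : ℕ) (x : V) : bbf n x delta = - 2 * ((n : ℂ) - 1) * x.2.2 := by
  simp [bbf, delta]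

theorem bbf_hvec (n r k₀ : ℕ) (x : V) :
    bbf n x (hvec r k₀) = (x.1 0).1 * (r * k₀) + (x.1 0).2 := by
  simp [bbf, hvec, Fin.sum_univ_three]

theorem bbf_h_h (n r k₀ : ℕ) : bbf n (hvec r k₀) (hvec r k₀) = 2 * r * k₀ := by
  rw [bbf_hvec]; simp [hvec]; ring

theorem bbf_h_delta (n r k₀ : ℕ) : bbf n (hvec r k₀) delta = 0 := by
  rw [bbf_delta]; simp [hvec]

theorem bbf_delta_delta (n : ℕ) : bbf n delta delta = - 2 * ((n : ℂ) - 1) := by
  rw [bbf_delta]; simp [delta]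

end Pool.Agent.Helper93.EB
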