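import Mathlib
import Pool.Agent.Helper93.EB.Defs

/-! Versions of the definitions with linear equivalences, used in the proofs. -/

namespace Pool.Agent.Helper93.EB

/-- Isometries of the lattice that fix `w` and act as `1` or as `-1` on the discriminant group
(Markman's description of the monodromy group; the orientation condition is automatic for
Hodge isometries that fix `w`). -/
structure IsMonE (n : ℕ) (w : V) (g : V ≃ₗ[ℂ] V) : Prop where
  isom : ∀ x y, bbf n (g x) (g y) = bbf n x y
  fix : g w = w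
  map : g '' Lam = Lam
  disc : (∀ y ∈ dual n Lam, g y - y ∈ Lam) ∨ (∀ y ∈ dual n Lam, g y + y ∈ Lam)

/-- Markings of `H²(X, ℤ)`: isometries `g` from the standard lattice onto `LamX` that fix `w` and
carry the class of `δ / (2n-2)` in one discriminant group to `±` the class of `δ / (2n-2)` in
the other. -/
structure IsMarkingE (n r k₀ : ℕ) (w : V) (g : V ≃ₗ[ℂ] V) : Prop where
  isom : ∀ x y, bbf n (g x) (g y) = bbf n x y
  fix : g w = w
  map : g '' Lam = LamX n r k₀
  disc : g ((1 / (2 * ((n : ℂ) - 1))) • delta) - (1 / (2 * ((n : ℂ) - 1))) • delta ∈ LamX n r k₀ ∨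
    g ((1 / (2 * ((n : ℂ) - 1))) • delta) + (1 / (2 * ((n : ℂ) - 1))) • delta ∈ LamX n r k₀

variable {n r k₀ : ℕ} {w : V}

/-- a linear automorphism given as a function -/
noncomputable def toE {g : V → V} (h : IsIsometry n g) : V ≃ₗ[ℂ] V :=
  LinearEquiv.ofBijective ({ toFun := g, map_add' := h.add, map_smul' := h.smul } : V →ₗ[ℂ] V)
    h.bij

theorem toE_coe {g : V → V} (h : IsIsometry n g) : ⇑(toE h) = g := rfl

theorem mon_toE {g : V → V} (h : IsMon n w g) : IsMonE n w (toE h.isometry) :=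
  ⟨h.isometry.isom, h.fix, h.map, h.disc⟩

theorem marking_toE {g : V → V} (h : IsMarking n r k₀ w g) :
    IsMarkingE n r k₀ w (toE h.isometry) :=
  ⟨h.isometry.isom, h.fix, h.map, h.disc⟩

theorem isometry_ofE {e : V ≃ₗ[ℂ] V} (h : ∀ x y, bbf n (e x) (e y) = bbf n x y) :
    IsIsometry n e :=
  ⟨fun x y => map_add e x y, fun c x => map_smul e c x, e.bijective, h⟩

theorem mon_ofE {e : V ≃ₗ[ℂ] V} (h : IsMonE n w e) : IsMon n w e :=
  ⟨isometry_ofE h.isom, h.fix, h.map, h.disc⟩

theorem marking_ofE {e : V ≃ₗ[ℂ] V} (h : IsMarkingE n r k₀ w e) : IsMarking n r k₀ w e :=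
  ⟨isometry_ofE h.isom, h.fix, h.map, h.disc⟩

end Pool.Agent.Helper93.EB
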