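import Mathlib
import Pool.Agent.Helper93.EB.Basic
import Pool.Agent.Helper93.EB.DefsE

/-! The monodromy group of `(Lam, w)` preserves `LamX`. -/

namespace Pool.Agent.Helper93.EB

variable {n γ r k₀ : ℕ}

theorem nm1_ne (hn : 2 ≤ n) : ((n : ℂ) - 1) ≠ 0 := by
  have h : (n : ℂ) ≠ 1 := by
    intro h
    have : n = 1 := by exact_mod_cast h
    omega
  exact sub_ne_zero.mpr h

theorem LamX_iff {y : V} : y ∈ LamX n r k₀ ↔
    ∃ a b : ℤ, ∃ l ∈ Lam, bbf n l (hvec r k₀) = a * k₀ + b * r ∧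
      y = l - ((a : ℂ) / r) • hvec r k₀ := by
  constructor
  · rintro ⟨a, b, c, z, ⟨hz, hz0⟩, h, rfl⟩
    refine ⟨a, b, z + (c : ℂ) • delta, Lam_add hz (Lam_zsmul c delta_mem), ?_, ?_⟩
    · rw [bbf_add_left, bbf_smul_left, bbf_comm n delta, bbf_h_delta]
      linear_combination h
    · abel
  · rintro ⟨a, b, l, hl, h, rfl⟩
    obtain ⟨c, hc⟩ := hl.2.2
    refine ⟨a, b, c, l - (c : ℂ) • delta, ⟨Lam_sub hl (Lam_zsmul c delta_mem), ?_⟩, ?_, ?_⟩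
    · simp [delta, hc]
    · rw [bbf_sub_left, bbf_smul_left, bbf_comm n delta, bbf_h_delta]
      linear_combination h
    · abel

theorem dual_delta (hn : 2 ≤ n) : (1 / (2 * ((n : ℂ) - 1))) • delta ∈ dual n Lam := by
  intro x hx
  obtain ⟨d, hd⟩ := hx.2.2
  refine ⟨-d, ?_⟩
  rw [bbf_smul_left, bbf_comm, bbf_delta, hd]
  have := nm1_ne hn
  push_cast
  field_simp

theorem hvec_eq (hγ : (γ : ℂ) ≠ 0) :
    hvec r k₀ = (1 / (γ : ℂ)) • wvec γ r k₀ + ((r : ℂ) / 2) • delta := by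
  unfold wvec
  rw [smul_smul, one_div, inv_mul_cancel₀ hγ, one_smul]
  abel

/-- `g δ = ε δ + 2 (n-1) u` with `u` in the lattice. -/
theorem mon_delta (hn : 2 ≤ n) {w : V} {g : V ≃ₗ[ℂ] V} (hg : IsMonE n w g) :
    ∃ ε : ℤ, (ε = 1 ∨ ε = -1) ∧ ∃ u ∈ Lam,
      g delta = (ε : ℂ) • delta + (2 * ((n : ℂ) - 1)) • u := by
  have hN := nm1_ne hn
  have h2 : (2 * ((n : ℂ) - 1)) ≠ 0 := mul_ne_zero two_ne_zero hN
  have hd : delta = (2 * ((n : ℂ) - 1)) • ((1 / (2 * ((n : ℂ) - 1))) • delta) := by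
    rw [smul_smul, mul_one_div_cancel h2, one_smul]
  rcases hg.disc with h | h
  · refine ⟨1, Or.inl rfl, _, h _ (dual_delta hn), ?_⟩
    rw [smul_sub, ← map_smul, ← hd]
    simp
  · refine ⟨-1, Or.inr rfl, _, h _ (dual_delta hn), ?_⟩
    rw [smul_add, ← map_smul, ← hd]
    simp

theorem mon_hvec (hγ : (γ : ℂ) ≠ 0) {g : V ≃ₗ[ℂ] V} (hw : g (wvec γ r k₀) = wvec γ r k₀)
    {ε : ℤ} (hε : ε = 1 ∨ ε = -1) {u : V} (hu : u ∈ Lam)
    (hδ : g delta = (ε : ℂ) • delta + (2 * ((n : ℂ) - 1)) • u) :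
    ∃ ν ∈ Lam, g (hvec r k₀) = hvec r k₀ + (r : ℂ) • ν := by
  have h1 : g (hvec r k₀) = hvec r k₀ + ((r : ℂ) / 2) • (g delta - delta) := by
    conv_lhs => rw [hvec_eq (r := r) (k₀ := k₀) hγ]
    conv_rhs => rw [hvec_eq (r := r) (k₀ := k₀) hγ]
    rw [map_add, map_smul, map_smul, hw, smul_sub]
    abel
  have hN : ((n : ℂ) - 1) = (((n : ℤ) - 1 : ℤ) : ℂ) := by push_cast; ring
  rcases hε with rfl | rfl
  · refine ⟨(((n : ℤ) - 1 : ℤ) : ℂ) • u, Lam_zsmul _ hu, ?_⟩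
    rw [h1, hδ, ← hN]
    rw [Int.cast_one, one_smul, add_sub_cancel_left, smul_smul, smul_smul]
    congr 2; ring
  · refine ⟨(((n : ℤ) - 1 : ℤ) : ℂ) • u - delta, Lam_sub (Lam_zsmul _ hu) delta_mem, ?_⟩
    rw [h1, hδ, ← hN]
    have : ((-1 : ℤ) : ℂ) = -1 := by push_cast; ring
    rw [this]
    module

theorem LamX_stable_aux {g : V ≃ₗ[ℂ] V} (hr : (r : ℂ) ≠ 0)
    (hiso : ∀ x y, bbf n (g x) (g y) = bbf n x y)
    (hL : ∀ x ∈ Lam, g x ∈ Lam) {ν : V} (hν : ν ∈ Lam)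
    (hh : g (hvec r k₀) = hvec r k₀ + (r : ℂ) • ν) {y : V} (hy : y ∈ LamX n r k₀) :
    g y ∈ LamX n r k₀ := by
  obtain ⟨a, b, l, hl, hlh, rfl⟩ := LamX_iff.mp hy
  obtain ⟨t, ht⟩ := bbf_even n hν
  obtain ⟨q, hq⟩ := bbf_int n (hL l hl) hν
  -- B(ν,h) = -r t
  have hνh : bbf n ν (hvec r k₀) = - r * t := by
    have h1 := hiso (hvec r k₀) (hvec r k₀)
    rw [hh, bbf_add_left, bbf_add_right, bbf_add_right, bbf_smul_left, bbf_smul_right,
      bbf_smul_left, bbf_smul_right, bbf_comm n (hvec r k₀) ν, ht] at h1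
    have h2 : (r : ℂ) * (2 * (bbf n ν (hvec r k₀) + r * t)) = 0 := by linear_combination h1
    have h3 := (mul_eq_zero.mp h2).resolve_left hr
    have h4 := (mul_eq_zero.mp h3).resolve_left two_ne_zero
    linear_combination h4
  have hglh : bbf n (g l) (hvec r k₀) = a * k₀ + b * r - r * q := by
    have h1 := hiso l (hvec r k₀)
    rw [hh, bbf_add_right, bbf_smul_right, hq, hlh] at h1
    linear_combination h1
  refine LamX_iff.mpr ⟨a, b - q + a * t, g l - (a : ℂ) • ν,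
    Lam_sub (hL l hl) (Lam_zsmul a hν), ?_, ?_⟩
  · rw [bbf_sub_left, bbf_smul_left, hglh, hνh]
    push_cast
    ring
  · rw [map_sub, map_smul, hh, smul_add, smul_smul, div_mul_cancel₀ _ hr]
    abel

/-- the element `u` of `mon_delta` lies in `LamX` -/
theorem mon_delta_X (hn : 2 ≤ n) {g : V ≃ₗ[ℂ] V}
    (hiso : ∀ x y, bbf n (g x) (g y) = bbf n x y)
    {ν : V} (hν : ν ∈ Lam) (hh : g (hvec r k₀) = hvec r k₀ + (r : ℂ) • ν)
    {ε : ℤ} {u : V} (hu : u ∈ Lam)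
    (hδ : g delta = (ε : ℂ) • delta + (2 * ((n : ℂ) - 1)) • u) : u ∈ LamX n r k₀ := by
  have hN := nm1_ne hn
  obtain ⟨q, hq⟩ := bbf_int n hu hν
  obtain ⟨d, hd⟩ := hν.2.2
  refine LamX_iff.mpr ⟨0, ε * d - q, u, hu, ?_, by simp⟩
  have h1 := hiso delta (hvec r k₀)
  rw [hh, bbf_add_right, bbf_smul_right, hδ, bbf_add_left, bbf_add_left, bbf_smul_left,
    bbf_smul_left, bbf_smul_left, bbf_smul_left, bbf_comm n delta (hvec r k₀), bbf_h_delta, hq,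
    bbf_comm n delta ν, bbf_delta, hd] at h1
  have h2 : (2 * ((n : ℂ) - 1)) * (bbf n u (hvec r k₀) - r * (ε * d - q)) = 0 := by
    linear_combination h1
  have h3 := (mul_eq_zero.mp h2).resolve_left (mul_ne_zero two_ne_zero hN)
  push_cast
  linear_combination h3

end Pool.Agent.Helper93.EB
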