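import Mathlib
import Pool.Agent.Helper93.EB.Stable

/-! An explicit isometry from `Lam` onto `LamX` that fixes `h` and `δ`. -/

namespace Pool.Agent.Helper93.EB

/-- forward map on the first two hyperbolic planes -/
noncomputable def fwd (r k u v : ℂ) (x : Fin 3 → ℂ × ℂ) : Fin 3 → ℂ × ℂ :=
  ![((r * r * u * (x 0).1 - r * (x 1).2 + r * u * v * (x 1).1 + v * (x 0).2) / r,
      r * (k * k * v * (x 0).1 + k * (x 1).2 - k * u * v * (x 1).1 + u * (x 0).2)),
    (-(k * r * u * (x 0).1 - k * (x 1).2 - r * u * u * (x 1).1 - u * (x 0).2),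
      r * k * v * (x 0).1 + r * (x 1).2 + k * v * v * (x 1).1 - v * (x 0).2),
    x 2]

/-- backward map on the first two hyperbolic planes -/
noncomputable def bwd (r k u v : ℂ) (y : Fin 3 → ℂ × ℂ) : Fin 3 → ℂ × ℂ :=
  ![(u * (r * (y 0).1 + (y 1).2) + v * (-(y 1).1 + (y 0).2 / r),
      -k * (-k * v * r * (y 0).1 + r * u * (y 1).2) + r * (k * v * (y 1).1 + u * (y 0).2)),
    (-(-k * r * (y 0).1 - k * (y 1).2 - r * (y 1).1 + (y 0).2),
      u * (-k * v * r * (y 0).1 + r * u * (y 1).2) + v * (k * v * (y 1).1 + u * (y 0).2)),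
    y 2]

theorem bwd_fwd {r k u v : ℂ} (hr : r ≠ 0) (huv : r * u + k * v = 1) (x : Fin 3 → ℂ × ℂ) :
    bwd r k u v (fwd r k u v x) = x := by
  funext i
  fin_cases i
  · ext
    · simp [bwd, fwd]
      field_simp
      linear_combination
        ((x 0).1 * (r * u + k * v + 1)) * huv
    · simp [bwd, fwd]
      field_simp
      linear_combination
        ((x 0).2 * (r * u + k * v + 1)) * huv
  · ext
    · simp [bwd, fwd]
      field_simp
      linear_combination
        ((x 1).1 * (r * u + k * v + 1)) * huv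
    · simp [bwd, fwd]
      field_simp
      linear_combination
        ((x 1).2 * (r * u + k * v + 1)) * huv
  · simp [bwd, fwd]

theorem fwd_bwd {r k u v : ℂ} (hr : r ≠ 0) (huv : r * u + k * v = 1) (y : Fin 3 → ℂ × ℂ) :
    fwd r k u v (bwd r k u v y) = y := by
  funext i
  fin_cases i
  · ext
    · simp [bwd, fwd]
      field_simp
      linear_combination
        ((y 0).1 * (r * u + k * v + 1)) * huv
    · simp [bwd, fwd]
      field_simp
      linear_combination
        ((y 0).2 * (r * u + k * v + 1)) * huv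
  · ext
    · simp [bwd, fwd]
      field_simp
      linear_combination
        ((y 1).1 * (r * u + k * v + 1)) * huv
    · simp [bwd, fwd]
      field_simp
      linear_combination
        ((y 1).2 * (r * u + k * v + 1)) * huv
  · simp [bwd, fwd]

/-- The explicit isometry. -/
noncomputable def G0 (r k u v : ℂ) (hr : r ≠ 0) (huv : r * u + k * v = 1) : V ≃ₗ[ℂ] V where
  toFun x := (fwd r k u v x.1, x.2)
  invFun y := (bwd r k u v y.1, y.2)
  left_inv x := Prod.ext (bwd_fwd hr huv x.1) rfl
  right_inv y := Prod.ext (fwd_bwd hr huv y.1) rfl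
  map_add' x y := by
    refine Prod.ext (funext fun i => ?_) rfl
    fin_cases i
    · ext <;> simp [fwd] <;> ring
    · ext <;> simp [fwd] <;> ring
    · simp [fwd]
  map_smul' c x := by
    refine Prod.ext (funext fun i => ?_) rfl
    fin_cases i
    · ext <;> simp [fwd] <;> ring
    · ext <;> simp [fwd] <;> ring
    · simp [fwd]

theorem G0_apply (r k u v : ℂ) (hr : r ≠ 0) (huv : r * u + k * v = 1) (x : V) :
    G0 r k u v hr huv x = (fwd r k u v x.1, x.2) := rfl

theorem G0_isom (n : ℕ) (r k u v : ℂ) (hr : r ≠ 0) (huv : r * u + k * v = 1) (x y : V) :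
    bbf n (G0 r k u v hr huv x) (G0 r k u v hr huv y) = bbf n x y := by
  unfold bbf
  simp only [G0_apply]
  congr 2
  simp only [Fin.sum_univ_three, fwd, Matrix.cons_val_zero, Matrix.cons_val_one, Matrix.cons_val]
  have key : ((r * r * u * (x.1 0).1 - r * (x.1 1).2 + r * u * v * (x.1 1).1 + v * (x.1 0).2) / r *
        (r * (k * k * v * (y.1 0).1 + k * (y.1 1).2 - k * u * v * (y.1 1).1 + u * (y.1 0).2)) +
      r * (k * k * v * (x.1 0).1 + k * (x.1 1).2 - k * u * v * (x.1 1).1 + u * (x.1 0).2) *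
        ((r * r * u * (y.1 0).1 - r * (y.1 1).2 + r * u * v * (y.1 1).1 + v * (y.1 0).2) / r) +
      (-(k * r * u * (x.1 0).1 - k * (x.1 1).2 - r * u * u * (x.1 1).1 - u * (x.1 0).2) *
        (r * k * v * (y.1 0).1 + r * (y.1 1).2 + k * v * v * (y.1 1).1 - v * (y.1 0).2) +
      (r * k * v * (x.1 0).1 + r * (x.1 1).2 + k * v * v * (x.1 1).1 - v * (x.1 0).2) *
        -(k * r * u * (y.1 0).1 - k * (y.1 1).2 - r * u * u * (y.1 1).1 - u * (y.1 0).2)))
      = (r * u + k * v) ^ 2 * ((x.1 0).1 * (y.1 0).2 + (x.1 0).2 * (y.1 0).1 +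
        ((x.1 1).1 * (y.1 1).2 + (x.1 1).2 * (y.1 1).1)) := by
    field_simp
    ring
  rw [key, huv]
  ring

end Pool.Agent.Helper93.EB
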