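import Mathlib
import Pool.Agent.Helper93.EB.Iso

/-! The dual lattice, complex conjugation and decomposition into coordinates. -/

namespace Pool.Agent.Helper93.EB

/-- basis vectors -/
noncomputable def eU (i : Fin 3) : V := (Pi.single i (1, 0), 0, 0)
noncomputable def fU (i : Fin 3) : V := (Pi.single i (0, 1), 0, 0)
noncomputable def eE (j : Fin 2) (a : Fin 8) : V := (0, Pi.single j (Pi.single a 1), 0)

theorem eU_mem (i : Fin 3) : eU i ∈ Lam := by
  refine ⟨fun l => ?_, fun j a => ⟨0, by simp [eU]⟩, ⟨0, by simp [eU]⟩⟩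
  by_cases h : l = i
  · subst h; exact ⟨⟨1, by simp [eU]⟩, ⟨0, by simp [eU]⟩⟩
  · exact ⟨⟨0, by simp [eU, h]⟩, ⟨0, by simp [eU, h]⟩⟩

theorem fU_mem (i : Fin 3) : fU i ∈ Lam := by
  refine ⟨fun l => ?_, fun j a => ⟨0, by simp [fU]⟩, ⟨0, by simp [fU]⟩⟩
  by_cases h : l = i
  · subst h; exact ⟨⟨0, by simp [fU]⟩, ⟨1, by simp [fU]⟩⟩
  · exact ⟨⟨0, by simp [fU, h]⟩, ⟨0, by simp [fU, h]⟩⟩

theorem eE_mem (j : Fin 2) (a : Fin 8) : eE j a ∈ Lam := by
  refine ⟨fun l => ⟨⟨0, by simp [eE]⟩, ⟨0, by simp [eE]⟩⟩, fun j' a' => ?_, ⟨0, by simp [eE]⟩⟩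
  by_cases h : j' = j
  · subst h
    by_cases h' : a' = a
    · subst h'; exact ⟨1, by simp [eE]⟩
    · exact ⟨0, by simp [eE, h']⟩
  · exact ⟨0, by simp [eE, h]⟩

theorem V_decomp (x : V) :
    x = (∑ i, ((x.1 i).1 • eU i + (x.1 i).2 • fU i)) + (∑ j, ∑ a, x.2.1 j a • eE j a)
      + x.2.2 • delta := by
  refine Prod.ext ?_ (Prod.ext ?_ ?_)
  · funext i
    fin_cases i <;> (ext <;>
      simp [eU, fU, eE, delta, Fin.sum_univ_three, Prod.fst_sum])
  · funext j a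
    fin_cases j <;> fin_cases a <;>
      simp [eU, fU, eE, delta, Fin.sum_univ_three, Fin.sum_univ_eight, Fin.sum_univ_two]
  · simp [eU, fU, eE, delta, Prod.snd_sum]

/-- Every linear map that carries the lattice to real vectors commutes with conjugation. -/
theorem star_comm (g : V ≃ₗ[ℂ] V) (h : ∀ x ∈ Lam, star (g x) = g x) (x : V) :
    g (star x) = star (g x) := by
  conv_lhs => rw [V_decomp (star x)]
  conv_rhs => rw [V_decomp x]
  simp only [map_add, map_sum, map_smul, star_add, star_sum, star_smul,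
    h _ (eU_mem _), h _ (fU_mem _), h _ (eE_mem _ _), h _ delta_mem]
  rfl

theorem real_Lam {x : V} (hx : x ∈ Lam) : star x = x := by
  obtain ⟨h1, h2, h3⟩ := hx
  refine Prod.ext (funext fun i => Prod.ext ?_ ?_) (Prod.ext (funext fun j => funext fun a => ?_) ?_)
  · obtain ⟨a, ha⟩ := (h1 i).1
    simp [ha]
  · obtain ⟨a, ha⟩ := (h1 i).2
    simp [ha]
  · obtain ⟨c, hc⟩ := h2 j a
    simp [hc]
  · obtain ⟨c, hc⟩ := h3
    simp [hc]

theorem real_LamX {n r k₀ : ℕ} {y : V} (hy : y ∈ LamX n r k₀) : star y = y := by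
  obtain ⟨a, b, l, hl, _, rfl⟩ := LamX_iff.mp hy
  rw [star_sub, star_smul, real_Lam hl, real_Lam (hvec_mem r k₀)]
  congr 2
  simp

/-- inverse of the Cartan matrix of type `E₈` -/
def E8inv : Matrix (Fin 8) (Fin 8) ℤ :=
  !![4, 5, 7, 10, 8, 6, 4, 2;
     5, 8, 10, 15, 12, 9, 6, 3;
     7, 10, 14, 20, 16, 12, 8, 4;
     10, 15, 20, 30, 24, 18, 12, 6;
     8, 12, 16, 24, 20, 15, 10, 5;
     6, 9, 12, 18, 15, 12, 8, 4;
     4, 6, 8, 12, 10, 8, 6, 3;
     2, 3, 4, 6, 5, 4, 3, 2]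

theorem E8inv_mul (c a : Fin 8) :
    ∑ b, E8inv c b * CartanMatrix.E₈ a b = if a = c then 1 else 0 := by
  fin_cases c <;> fin_cases a <;>
    simp [E8inv, CartanMatrix.E₈, Fin.sum_univ_eight]

theorem bbf_eU (n : ℕ) (y : V) (i : Fin 3) : bbf n y (eU i) = (y.1 i).2 := by
  fin_cases i <;> simp [bbf, eU, Fin.sum_univ_three]

theorem bbf_fU (n : ℕ) (y : V) (i : Fin 3) : bbf n y (fU i) = (y.1 i).1 := by
  fin_cases i <;> simp [bbf, fU, Fin.sum_univ_three]

theorem bbf_eE (n : ℕ) (y : V) (j : Fin 2) (b : Fin 8) :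
    bbf n y (eE j b) = - ∑ a, ((CartanMatrix.E₈ a b : ℤ) : ℂ) * y.2.1 j a := by
  unfold bbf
  have h1 : ∀ (j' : Fin 2) (b' : Fin 8),
      (eE j b).2.1 j' b' = if j' = j then (if b' = b then 1 else 0) else 0 := by
    intro j' b'
    by_cases h : j' = j
    · subst h
      by_cases h' : b' = b
      · subst h'; simp [eE]
      · simp [eE, h']
    · simp [eE, h]
  have h2 : (eE j b).2.2 = 0 := rfl
  have h3 : ∀ i, (eE j b).1 i = 0 := fun i => rfl
  simp only [h2, h3, Prod.fst_zero, Prod.snd_zero, mul_zero, add_zero, Finset.sum_const_zero,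
    zero_sub, sub_zero]
  congr 1
  rw [Finset.sum_eq_single j]
  · refine Finset.sum_congr rfl fun a _ => ?_
    rw [Finset.sum_eq_single b]
    · rw [h1 j b]; simp
    · intro b' _ hb'
      rw [h1 j b']; simp [hb']
    · intro h; exact absurd (Finset.mem_univ _) h
  · intro j' _ hj'
    refine Finset.sum_eq_zero fun a _ => Finset.sum_eq_zero fun b' _ => ?_
    rw [h1 j' b']; simp [hj']
  · intro h; exact absurd (Finset.mem_univ _) h

/-- The dual lattice is generated by the lattice and `δ / (2n-2)`. -/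
theorem dual_decomp {n : ℕ} (hn : 2 ≤ n) {y : V} (hy : y ∈ dual n Lam) :
    ∃ c : ℤ, ∃ l ∈ Lam, y = l + (c : ℂ) • ((1 / (2 * ((n : ℂ) - 1))) • delta) := by
  have hN := nm1_ne hn
  obtain ⟨d, hd⟩ := hy _ delta_mem
  rw [bbf_delta] at hd
  refine ⟨-d, y - ((-d : ℤ) : ℂ) • ((1 / (2 * ((n : ℂ) - 1))) • delta), ?_, by abel⟩
  refine ⟨fun i => ⟨?_, ?_⟩, fun j a => ?_, ⟨0, ?_⟩⟩
  · obtain ⟨a, ha⟩ := hy _ (fU_mem i)
    rw [bbf_fU] at ha
    exact ⟨a, by simp [delta, ha]⟩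
  · obtain ⟨a, ha⟩ := hy _ (eU_mem i)
    rw [bbf_eU] at ha
    exact ⟨a, by simp [delta, ha]⟩
  · choose t ht using fun b => hy _ (eE_mem j b)
    refine ⟨- ∑ b, E8inv a b * t b, ?_⟩
    have h0 : (y - ((-d : ℤ) : ℂ) • ((1 / (2 * ((n : ℂ) - 1))) • delta)).2.1 j a = y.2.1 j a := by
      simp [delta]
    rw [h0]
    push_cast
    simp only [← ht, bbf_eE]
    have h1 : ∀ b, ((E8inv a b : ℤ) : ℂ) * (- ∑ c, ((CartanMatrix.E₈ c b : ℤ) : ℂ) * y.2.1 j c)
        = - ∑ c, ((E8inv a b * CartanMatrix.E₈ c b : ℤ) : ℂ) * y.2.1 j c := by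
      intro b
      rw [mul_neg, Finset.mul_sum]
      congr 1
      refine Finset.sum_congr rfl fun c _ => ?_
      push_cast; ring
    simp only [h1, Finset.sum_neg_distrib, neg_neg]
    rw [Finset.sum_comm]
    simp only [← Finset.sum_mul, ← Int.cast_sum, E8inv_mul]
    simp
  · simp only [Prod.snd_sub, Prod.smul_snd, delta, smul_eq_mul]
    push_cast
    field_simp
    linear_combination (-1/1) * hd

end Pool.Agent.Helper93.EB
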