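import Mathlib
import Pool.Agent.Helper93.EB.Dual

/-! The monodromy group, markings, and the action on periods. -/

namespace Pool.Agent.Helper93.EB

variable {n γ r k₀ : ℕ} {w : V}

/-- the class `δ / (2n-2)` -/
noncomputable def dd (n : ℕ) : V := (1 / (2 * ((n : ℂ) - 1))) • delta

theorem image_trans {g g' : V ≃ₗ[ℂ] V} {M M' M'' : Set V} (h : g '' M = M') (h' : g' '' M' = M'') :
    (g.trans g') '' M = M'' := by
  rw [← h', ← h, Set.image_image]
  rfl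

theorem mem_of_map {g : V ≃ₗ[ℂ] V} {M M' : Set V} (h : g '' M = M') {x : V} (hx : x ∈ M) :
    g x ∈ M' := h ▸ ⟨x, hx, rfl⟩

theorem symm_mem_of_map {g : V ≃ₗ[ℂ] V} {M M' : Set V} (h : g '' M = M') {x : V} (hx : x ∈ M') :
    g.symm x ∈ M := by
  rw [← h] at hx
  obtain ⟨y, hy, rfl⟩ := hx
  simpa using hy

theorem symm_image {g : V ≃ₗ[ℂ] V} {M M' : Set V} (h : g '' M = M') : g.symm '' M' = M := by
  ext x
  constructor
  · rintro ⟨y, hy, rfl⟩
    exact symm_mem_of_map h hy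
  · intro hx
    exact ⟨g x, mem_of_map h hx, by simp⟩

theorem symm_isom {g : V ≃ₗ[ℂ] V} (h : ∀ x y, bbf n (g x) (g y) = bbf n x y) (x y : V) :
    bbf n (g.symm x) (g.symm y) = bbf n x y := by
  rw [← h (g.symm x) (g.symm y)]; simp

theorem symm_fix {g : V ≃ₗ[ℂ] V} (h : g w = w) : g.symm w = w := by
  conv_lhs => rw [← h]
  simp

/-- it is enough to know the action on `δ / (2n-2)` -/
theorem mon_of_delta (hn : 2 ≤ n) {g : V ≃ₗ[ℂ] V}
    (hiso : ∀ x y, bbf n (g x) (g y) = bbf n x y) (hw : g w = w) (hL : g '' Lam = Lam)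
    {ε : ℤ} (hε : ε = 1 ∨ ε = -1) (hd : g (dd n) - (ε : ℂ) • dd n ∈ Lam) : IsMonE n w g := by
  refine ⟨hiso, hw, hL, ?_⟩
  rcases hε with rfl | rfl
  · left
    intro y hy
    obtain ⟨c, l, hl, rfl⟩ := dual_decomp hn hy
    change g (l + (c : ℂ) • dd n) - (l + (c : ℂ) • dd n) ∈ Lam
    have h1 : g (l + (c : ℂ) • dd n) - (l + (c : ℂ) • dd n) =
        (g l - l) + (c : ℂ) • (g (dd n) - ((1 : ℤ) : ℂ) • dd n) := by
      rw [map_add, map_smul, Int.cast_one, one_smul]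
      module
    rw [h1]
    exact Lam_add (Lam_sub (mem_of_map hL hl) hl) (Lam_zsmul c hd)
  · right
    intro y hy
    obtain ⟨c, l, hl, rfl⟩ := dual_decomp hn hy
    change g (l + (c : ℂ) • dd n) + (l + (c : ℂ) • dd n) ∈ Lam
    have h1 : g (l + (c : ℂ) • dd n) + (l + (c : ℂ) • dd n) =
        (g l + l) + (c : ℂ) • (g (dd n) - ((-1 : ℤ) : ℂ) • dd n) := by
      rw [map_add, map_smul]
      push_cast
      module
    rw [h1]
    exact Lam_add (Lam_add (mem_of_map hL hl) hl) (Lam_zsmul c hd)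

theorem mon_dd (hn : 2 ≤ n) {g : V ≃ₗ[ℂ] V} (hg : IsMonE n w g) :
    ∃ ε : ℤ, (ε = 1 ∨ ε = -1) ∧ g (dd n) - (ε : ℂ) • dd n ∈ Lam := by
  rcases hg.disc with h | h
  · refine ⟨1, Or.inl rfl, ?_⟩
    rw [Int.cast_one, one_smul]
    exact h _ (dual_delta hn)
  · refine ⟨-1, Or.inr rfl, ?_⟩
    rw [Int.cast_neg, Int.cast_one, neg_one_smul, sub_neg_eq_add]
    exact h _ (dual_delta hn)

theorem mon_symm (hn : 2 ≤ n) {g : V ≃ₗ[ℂ] V} (hg : IsMonE n w g) : IsMonE n w g.symm := by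
  obtain ⟨ε, hε, hd⟩ := mon_dd hn hg
  refine mon_of_delta hn (symm_isom hg.isom) (symm_fix hg.fix) (symm_image hg.map) hε ?_
  have h1 := symm_mem_of_map hg.map hd
  have h2 := Lam_zsmul (-ε) h1
  have h3 : g.symm (dd n) - (ε : ℂ) • dd n =
      ((-ε : ℤ) : ℂ) • g.symm (g (dd n) - (ε : ℂ) • dd n) := by
    rw [map_sub, map_smul, LinearEquiv.symm_apply_apply, smul_sub, smul_smul]
    rcases hε with rfl | rfl <;> push_cast <;> module
  rw [h3]
  exact h2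

theorem mon_trans (hn : 2 ≤ n) {g g' : V ≃ₗ[ℂ] V} (hg : IsMonE n w g) (hg' : IsMonE n w g') :
    IsMonE n w (g.trans g') := by
  obtain ⟨ε, hε, hd⟩ := mon_dd hn hg
  obtain ⟨ε', hε', hd'⟩ := mon_dd hn hg'
  refine mon_of_delta (ε := ε * ε') hn (fun x y => ?_) ?_ ?_ ?_ ?_
  · simp [hg'.isom, hg.isom]
  · simp [hg.fix, hg'.fix]
  · exact image_trans hg.map hg'.map
  · rcases hε with rfl | rfl <;> rcases hε' with rfl | rfl <;> simp
  · have h1 : (g.trans g') (dd n) - ((ε * ε' : ℤ) : ℂ) • dd n =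
        g' (g (dd n) - (ε : ℂ) • dd n) + (ε : ℂ) • (g' (dd n) - (ε' : ℂ) • dd n) := by
      rw [LinearEquiv.trans_apply, map_sub, map_smul, smul_sub, smul_smul]
      rcases hε with rfl | rfl <;> rcases hε' with rfl | rfl <;> push_cast <;> module
    rw [h1]
    exact Lam_add (mem_of_map hg'.map hd) (Lam_zsmul ε hd')

theorem mon_refl (hn : 2 ≤ n) : IsMonE n w (LinearEquiv.refl ℂ V) := by
  refine mon_of_delta (ε := 1) hn (fun x y => rfl) rfl ?_ (Or.inl rfl) ?_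
  · ext x; simp
  · have : (LinearEquiv.refl ℂ V) (dd n) - ((1 : ℤ) : ℂ) • dd n = 0 := by simp
    rw [this]
    have h0 := Lam_sub delta_mem delta_mem
    rwa [sub_self] at h0

theorem mon_star {g : V ≃ₗ[ℂ] V} (hg : IsMonE n w g) (x : V) : g (star x) = star (g x) :=
  star_comm g (fun _ hx => real_Lam (mem_of_map hg.map hx)) x

theorem marking_star {g : V ≃ₗ[ℂ] V} (hg : IsMarkingE n r k₀ w g) (x : V) :
    g (star x) = star (g x) :=
  star_comm g (fun _ hx => real_LamX (mem_of_map hg.map hx)) x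

theorem domain_map {g : V ≃ₗ[ℂ] V} (hiso : ∀ x y, bbf n (g x) (g y) = bbf n x y) (hw : g w = w)
    (hs : ∀ x, g (star x) = star (g x)) {σ : V} (hσ : σ ∈ periodDomain n w) :
    g σ ∈ periodDomain n w := by
  obtain ⟨h1, h2, h3⟩ := hσ
  refine ⟨?_, ?_, ?_⟩
  · rw [hiso, h1]
  · rw [← hs, hiso]; exact h2
  · conv_lhs => rw [← hw]
    rw [hiso, h3]

theorem domain_map_symm {g : V ≃ₗ[ℂ] V} (hiso : ∀ x y, bbf n (g x) (g y) = bbf n x y)
    (hw : g w = w) (hs : ∀ x, g (star x) = star (g x)) {σ : V} (hσ : σ ∈ periodDomain n w) :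
    g.symm σ ∈ periodDomain n w := by
  refine domain_map (symm_isom hiso) (symm_fix hw) (fun x => ?_) hσ
  apply g.injective
  rw [hs]; simp

/-- closure properties of `LamX` -/
theorem LamX_add {x y : V} (hx : x ∈ LamX n r k₀) (hy : y ∈ LamX n r k₀) :
    x + y ∈ LamX n r k₀ := by
  obtain ⟨a, b, l, hl, h, rfl⟩ := LamX_iff.mp hx
  obtain ⟨a', b', l', hl', h', rfl⟩ := LamX_iff.mp hy
  refine LamX_iff.mpr ⟨a + a', b + b', l + l', Lam_add hl hl', ?_, ?_⟩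
  · rw [bbf_add_left, h, h']; push_cast; ring
  · push_cast
    rw [add_div]
    module

theorem LamX_zsmul {x : V} (c : ℤ) (hx : x ∈ LamX n r k₀) : (c : ℂ) • x ∈ LamX n r k₀ := by
  obtain ⟨a, b, l, hl, h, rfl⟩ := LamX_iff.mp hx
  refine LamX_iff.mpr ⟨c * a, c * b, (c : ℂ) • l, Lam_zsmul c hl, ?_, ?_⟩
  · rw [bbf_smul_left, h]; push_cast; ring
  · push_cast
    rw [mul_div_assoc]
    module

theorem mon_stable (hn : 2 ≤ n) (hγ : (γ : ℂ) ≠ 0) (hr : (r : ℂ) ≠ 0) {g : V ≃ₗ[ℂ] V}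
    (hg : IsMonE n (wvec γ r k₀) g) {y : V} (hy : y ∈ LamX n r k₀) : g y ∈ LamX n r k₀ := by
  obtain ⟨ε, hε, u, hu, hδ⟩ := mon_delta hn hg
  obtain ⟨ν, hν, hh⟩ := mon_hvec hγ hg.fix hε hu hδ
  exact LamX_stable_aux hr hg.isom (fun x hx => mem_of_map hg.map hx) hν hh hy

theorem mon_image_X (hn : 2 ≤ n) (hγ : (γ : ℂ) ≠ 0) (hr : (r : ℂ) ≠ 0) {g : V ≃ₗ[ℂ] V}
    (hg : IsMonE n (wvec γ r k₀) g) : g '' LamX n r k₀ = LamX n r k₀ := by
  apply Set.Subset.antisymm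
  · rintro _ ⟨y, hy, rfl⟩
    exact mon_stable hn hγ hr hg hy
  · intro y hy
    exact ⟨g.symm y, mon_stable hn hγ hr (mon_symm hn hg) hy, by simp⟩

theorem mon_dd_X (hn : 2 ≤ n) (hγ : (γ : ℂ) ≠ 0) {g : V ≃ₗ[ℂ] V}
    (hg : IsMonE n (wvec γ r k₀) g) :
    ∃ ε : ℤ, (ε = 1 ∨ ε = -1) ∧ g (dd n) - (ε : ℂ) • dd n ∈ LamX n r k₀ := by
  obtain ⟨ε, hε, u, hu, hδ⟩ := mon_delta hn hg
  obtain ⟨ν, hν, hh⟩ := mon_hvec hγ hg.fix hε hu hδ
  refine ⟨ε, hε, ?_⟩
  have h1 := mon_delta_X hn hg.isom hν hh hu hδ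
  have h2 : g (dd n) - (ε : ℂ) • dd n = u := by
    have hN := nm1_ne hn
    unfold dd
    rw [map_smul, hδ, smul_add, smul_smul, smul_smul, smul_smul]
    have : (1 / (2 * ((n : ℂ) - 1))) * (2 * ((n : ℂ) - 1)) = 1 := by field_simp
    rw [this, one_smul]
    module
  rw [h2]; exact h1

theorem marking_dd {g : V ≃ₗ[ℂ] V} (hg : IsMarkingE n r k₀ w g) :
    ∃ ε : ℤ, (ε = 1 ∨ ε = -1) ∧ g (dd n) - (ε : ℂ) • dd n ∈ LamX n r k₀ := by
  rcases hg.disc with h | h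
  · refine ⟨1, Or.inl rfl, ?_⟩
    rw [Int.cast_one, one_smul]
    exact h
  · refine ⟨-1, Or.inr rfl, ?_⟩
    rw [Int.cast_neg, Int.cast_one, neg_one_smul, sub_neg_eq_add]
    exact h

/-- two markings differ by a monodromy operator -/
theorem marking_marking (hn : 2 ≤ n) {g g' : V ≃ₗ[ℂ] V} (hg : IsMarkingE n r k₀ w g)
    (hg' : IsMarkingE n r k₀ w g') : IsMonE n w (g.trans g'.symm) := by
  obtain ⟨ε, hε, hd⟩ := marking_dd hg
  obtain ⟨ε', hε', hd'⟩ := marking_dd hg'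
  refine mon_of_delta (ε := ε * ε') hn (fun x y => ?_) ?_ ?_ ?_ ?_
  · simp [symm_isom hg'.isom, hg.isom]
  · simp [hg.fix, symm_fix hg'.fix]
  · exact image_trans hg.map (symm_image hg'.map)
  · rcases hε with rfl | rfl <;> rcases hε' with rfl | rfl <;> simp
  · have h1 : (g.trans g'.symm) (dd n) - ((ε * ε' : ℤ) : ℂ) • dd n =
        g'.symm (g (dd n) - (ε : ℂ) • dd n)
          + ((-(ε * ε') : ℤ) : ℂ) • g'.symm (g' (dd n) - (ε' : ℂ) • dd n) := by
      simp only [LinearEquiv.trans_apply, map_sub, map_smul,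
        LinearEquiv.symm_apply_apply, smul_sub, smul_smul]
      rcases hε with rfl | rfl <;> rcases hε' with rfl | rfl <;> push_cast <;> module
    rw [h1]
    exact Lam_add (symm_mem_of_map hg'.map hd) (Lam_zsmul _ (symm_mem_of_map hg'.map hd'))

/-- conjugating a monodromy operator with a marking gives a monodromy operator -/
theorem marking_conj (hn : 2 ≤ n) (hγ : (γ : ℂ) ≠ 0) (hr : (r : ℂ) ≠ 0) {g f : V ≃ₗ[ℂ] V}
    (hg : IsMarkingE n r k₀ (wvec γ r k₀) g) (hf : IsMonE n (wvec γ r k₀) f) :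
    IsMonE n (wvec γ r k₀) ((g.trans f).trans g.symm) := by
  obtain ⟨ε, hε, hd⟩ := marking_dd hg
  obtain ⟨ε', hε', hd'⟩ := mon_dd_X hn hγ hf
  refine mon_of_delta (ε := ε') hn (fun x y => ?_) ?_ ?_ hε' ?_
  · simp [symm_isom hg.isom, hg.isom, hf.isom]
  · simp [hg.fix, hf.fix, symm_fix hg.fix]
  · exact image_trans (image_trans hg.map (mon_image_X hn hγ hr hf)) (symm_image hg.map)
  · have h1 : ((g.trans f).trans g.symm) (dd n) - (ε' : ℂ) • dd n =
        g.symm (f (g (dd n) - (ε : ℂ) • dd n))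
          + (ε : ℂ) • g.symm (f (dd n) - (ε' : ℂ) • dd n)
          + ((-ε' : ℤ) : ℂ) • g.symm (g (dd n) - (ε : ℂ) • dd n) := by
      rw [LinearEquiv.trans_apply, LinearEquiv.trans_apply]
      simp only [map_sub, map_smul, LinearEquiv.symm_apply_apply, smul_sub, smul_smul]
      rcases hε with rfl | rfl <;> rcases hε' with rfl | rfl <;> push_cast <;> module
    rw [h1]
    refine Lam_add (Lam_add (symm_mem_of_map hg.map ?_) (Lam_zsmul _ (symm_mem_of_map hg.map hd')))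
      (Lam_zsmul _ (symm_mem_of_map hg.map hd))
    exact mon_stable hn hγ hr hf hd

end Pool.Agent.Helper93.EB
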