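import Mathlib
import Pool.Agent.Helper93.EB.Group

/-! The explicit marking `G0` and its square. -/

namespace Pool.Agent.Helper93.EB

variable {n γ r k₀ : ℕ} {w : V}

/-- the explicit isometry for integers `u`, `v` with `r u + k₀ v = 1` -/
noncomputable def GG (r k₀ : ℕ) (u v : ℤ) (hr : (r : ℂ) ≠ 0)
    (huv : (r : ℂ) * u + (k₀ : ℂ) * v = 1) : V ≃ₗ[ℂ] V := G0 r k₀ u v hr huv

variable {u v : ℤ} {hr : (r : ℂ) ≠ 0} {huv : (r : ℂ) * u + (k₀ : ℂ) * v = 1}

theorem sub_h_zero (L : V) (c : ℂ) :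
    (L - c • hvec r k₀).1 0 = ((L.1 0).1 - c, (L.1 0).2 - c * (r * k₀)) := by
  simp [hvec, Prod.ext_iff]

theorem sub_h_one (L : V) (c : ℂ) : (L - c • hvec r k₀).1 1 = L.1 1 := by
  simp [hvec]

theorem sub_h_two (L : V) (c : ℂ) : (L - c • hvec r k₀).1 2 = L.1 2 := by
  simp [hvec]

theorem sub_h_snd (L : V) (c : ℂ) : (L - c • hvec r k₀).2 = L.2 := by
  refine Prod.ext ?_ ?_ <;> simp [hvec]

theorem hvec_zero : (hvec r k₀).1 0 = (1, (r : ℂ) * k₀) := by simp [hvec]

theorem hvec_one : (hvec r k₀).1 1 = (0, 0) := by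
  simp [hvec]
  rfl

theorem hvec_two : (hvec r k₀).1 2 = (0, 0) := by
  simp [hvec]
  rfl

theorem GG_hvec : GG r k₀ u v hr huv (hvec r k₀) = hvec r k₀ := by
  unfold GG
  rw [G0_apply]
  refine Prod.ext (funext fun i => ?_) rfl
  fin_cases i
  · simp only [fwd, Fin.zero_eta, Matrix.cons_val_zero, hvec_zero, hvec_one]
    refine Prod.ext ?_ ?_
    · simp only
      field_simp
      linear_combination huv
    · simp only
      linear_combination (r * k₀ : ℂ) * huv
  · simp only [fwd, Fin.mk_one, Matrix.cons_val_one, Matrix.cons_val_zero, hvec_zero, hvec_one]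
    refine Prod.ext ?_ ?_
    · simp only
      ring
    · simp only
      ring
  · simp [fwd]

theorem GG_delta : GG r k₀ u v hr huv delta = delta := by
  unfold GG
  rw [G0_apply]
  refine Prod.ext (funext fun i => ?_) rfl
  fin_cases i <;> simp [fwd, delta]

theorem GG_wvec : GG r k₀ u v hr huv (wvec γ r k₀) = wvec γ r k₀ := by
  unfold wvec
  rw [map_smul, map_sub, map_smul, GG_hvec, GG_delta]

theorem GG_isom (x y : V) : bbf n (GG r k₀ u v hr huv x) (GG r k₀ u v hr huv y) = bbf n x y :=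
  G0_isom n _ _ _ _ hr huv x y

theorem GG_mem {x : V} (hx : x ∈ Lam) : GG r k₀ u v hr huv x ∈ LamX n r k₀ := by
  obtain ⟨h1, h2, h3⟩ := hx
  choose p hp using fun i => (h1 i).1
  choose q hq using fun i => (h1 i).2
  -- integers P11, P22, P12, P21
  refine LamX_iff.mpr ⟨-(r * r * u * p 0 - r * q 1 + r * u * v * p 1 + v * q 0),
    k₀ * k₀ * v * p 0 + k₀ * q 1 - k₀ * u * v * p 1 + u * q 0,
    (![(0, r * (k₀ * k₀ * v * p 0 + k₀ * q 1 - k₀ * u * v * p 1 + u * q 0)
        - (r * r * u * p 0 - r * q 1 + r * u * v * p 1 + v * q 0) * k₀),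
      (-(k₀ * r * u * p 0 - k₀ * q 1 - r * u * u * p 1 - u * q 0),
        r * k₀ * v * p 0 + r * q 1 + k₀ * v * v * p 1 - v * q 0), (p 2, q 2)], x.2), ?_, ?_, ?_⟩
  · refine ⟨fun i => ?_, h2, h3⟩
    fin_cases i
    · exact ⟨⟨0, by simp⟩,
        ⟨r * (k₀ * k₀ * v * p 0 + k₀ * q 1 - k₀ * u * v * p 1 + u * q 0)
        - (r * r * u * p 0 - r * q 1 + r * u * v * p 1 + v * q 0) * k₀, by simp⟩⟩
    · exact ⟨⟨-(k₀ * r * u * p 0 - k₀ * q 1 - r * u * u * p 1 - u * q 0), by simp⟩,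
        ⟨r * k₀ * v * p 0 + r * q 1 + k₀ * v * v * p 1 - v * q 0, by simp⟩⟩
    · exact ⟨⟨p 2, by simp⟩, ⟨q 2, by simp⟩⟩
  · rw [bbf_hvec]
    simp
    ring
  · unfold GG
    rw [G0_apply]
    refine Prod.ext (funext fun i => ?_) ?_
    · fin_cases i
      · simp only [Fin.zero_eta, sub_h_zero]
        simp only [fwd, Matrix.cons_val_zero, hp, hq]
        refine Prod.ext ?_ ?_
        · simp only
          push_cast
          ring
        · simp only
          push_cast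
          field_simp
          ring
      · simp only [Fin.mk_one, sub_h_one]
        simp only [fwd, Matrix.cons_val_one, Matrix.cons_val_zero, hp, hq]
      · simp only [Fin.reduceFinMk, sub_h_two]
        simp only [fwd, Matrix.cons_val]
        refine Prod.ext (hp 2) (hq 2)
    · rw [sub_h_snd]

theorem GG_symm_mem {y : V} (hy : y ∈ LamX n r k₀) : (GG r k₀ u v hr huv).symm y ∈ Lam := by
  obtain ⟨a, b, l, ⟨h1, h2, h3⟩, hlh, rfl⟩ := LamX_iff.mp hy
  choose p hp using fun i => (h1 i).1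
  choose q hq using fun i => (h1 i).2
  rw [bbf_hvec, hp, hq] at hlh
  have hq0 : (q 0 : ℂ) = a * k₀ + b * r - p 0 * (r * k₀) := by linear_combination hlh
  have h0 : ((l - ((a : ℂ) / r) • hvec r k₀).1 0).1 = p 0 - a / r := by
    rw [sub_h_zero, hp]
  have h0' : ((l - ((a : ℂ) / r) • hvec r k₀).1 0).2 = r * (b - p 0 * k₀) := by
    rw [sub_h_zero, hq, hq0]
    simp only
    field_simp
    ring
  have h11 : ((l - ((a : ℂ) / r) • hvec r k₀).1 1) = ((p 1 : ℂ), (q 1 : ℂ)) := by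
    rw [sub_h_one]
    exact Prod.ext (hp 1) (hq 1)
  have h12 : ((l - ((a : ℂ) / r) • hvec r k₀).1 2) = ((p 2 : ℂ), (q 2 : ℂ)) := by
    rw [sub_h_two]
    exact Prod.ext (hp 2) (hq 2)
  have hs : (l - ((a : ℂ) / r) • hvec r k₀).2 = l.2 := sub_h_snd _ _
  change (bwd r k₀ u v (l - ((a : ℂ) / r) • hvec r k₀).1, (l - ((a : ℂ) / r) • hvec r k₀).2) ∈ Lam
  rw [hs]
  refine ⟨fun i => ?_, h2, h3⟩
  fin_cases i
  · refine ⟨⟨u * (r * p 0 - a + q 1) + v * (-(p 1) + (b - p 0 * k₀)), ?_⟩,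
      ⟨-k₀ * (-k₀ * v * (r * p 0 - a) + r * u * q 1) + r * (k₀ * v * p 1
        + u * (r * (b - p 0 * k₀))), ?_⟩⟩
    · simp only [bwd, h0, h0', h11, Fin.zero_eta, Matrix.cons_val_zero]
      push_cast
      field_simp
    · simp only [bwd, h0, h0', h11, Fin.zero_eta, Matrix.cons_val_zero]
      push_cast
      field_simp
      try ring
  · refine ⟨⟨-(-k₀ * (r * p 0 - a) - k₀ * q 1 - r * p 1 + r * (b - p 0 * k₀)), ?_⟩,
      ⟨u * (-k₀ * v * (r * p 0 - a) + r * u * q 1) + v * (k₀ * v * p 1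
        + u * (r * (b - p 0 * k₀))), ?_⟩⟩
    · simp only [bwd, h0, h0', h11, Fin.mk_one, Matrix.cons_val_one, Matrix.cons_val_zero]
      push_cast
      field_simp
    · simp only [bwd, h0, h0', h11, Fin.mk_one, Matrix.cons_val_one, Matrix.cons_val_zero]
      push_cast
      field_simp
      try ring
  · refine ⟨⟨p 2, ?_⟩, ⟨q 2, ?_⟩⟩
    · simp [bwd, h12]
    · simp [bwd, h12]

theorem GG_image : GG r k₀ u v hr huv '' Lam = LamX n r k₀ := by
  apply Set.Subset.antisymm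
  · rintro _ ⟨x, hx, rfl⟩
    exact GG_mem hx
  · intro y hy
    exact ⟨_, GG_symm_mem (hr := hr) (huv := huv) hy, by simp⟩

theorem GG_symm_hvec : (GG r k₀ u v hr huv).symm (hvec r k₀) = hvec r k₀ := by
  conv_lhs => rw [← GG_hvec (hr := hr) (huv := huv)]
  simp

theorem GG_symm_mem' {x : V} (hx : x ∈ Lam) : (GG r k₀ u v hr huv).symm x ∈ LamX n r k₀ := by
  obtain ⟨c, hc⟩ := bbf_int n hx (hvec_mem r k₀)
  -- `x - (v c / r) h` lies in `LamX`
  have h1 : x - (((v * c : ℤ) : ℂ) / r) • hvec r k₀ ∈ LamX n r k₀ := by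
    refine LamX_iff.mpr ⟨v * c, u * c, x, hx, ?_, rfl⟩
    rw [hc]
    push_cast
    linear_combination (-(c : ℂ)) * huv
  have h2 := GG_symm_mem (hr := hr) (huv := huv) h1
  refine LamX_iff.mpr ⟨-(v * c), u * c, _, h2, ?_, ?_⟩
  · have h3 := symm_isom (g := GG r k₀ u v hr huv) (n := n) (fun x y => GG_isom x y)
      (x - (((v * c : ℤ) : ℂ) / r) • hvec r k₀) (hvec r k₀)
    rw [GG_symm_hvec] at h3
    rw [h3, bbf_sub_left, bbf_smul_left, hc, bbf_h_h]
    push_cast
    field_simp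
    linear_combination (-(c : ℂ)) * huv
  · rw [map_sub, map_smul, GG_symm_hvec]
    push_cast
    module

theorem GG_mem' {y : V} (hy : y ∈ LamX n r k₀) : GG r k₀ u v hr huv y ∈ Lam := by
  obtain ⟨a, b, l, hl, hlh, rfl⟩ := LamX_iff.mp hy
  obtain ⟨a', b', l', hl', hlh', he⟩ := LamX_iff.mp (GG_mem (n := n) (hr := hr) (huv := huv) hl)
  -- `(a + a') k₀ = (b' - b) r`
  have h1 : bbf n (GG r k₀ u v hr huv l) (hvec r k₀) = a * k₀ + b * r := by
    have := GG_isom (n := n) (hr := hr) (huv := huv) l (hvec r k₀)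
    rw [GG_hvec] at this
    rw [this, hlh]
  rw [he, bbf_sub_left, bbf_smul_left, hlh', bbf_h_h] at h1
  have h2 : ((a : ℂ) + a') * k₀ = (b' - b) * r := by
    have : (a' : ℂ) / r * (2 * r * k₀) = 2 * a' * k₀ := by field_simp
    rw [this] at h1
    linear_combination -h1
  -- so `r` divides `a + a'`
  have h3 : (a : ℂ) + a' = r * ((u * (a + a') + v * (b' - b) : ℤ) : ℂ) := by
    push_cast
    linear_combination (-((a : ℂ) + a')) * huv + (v : ℂ) * h2
  have h4 : GG r k₀ u v hr huv (l - ((a : ℂ) / r) • hvec r k₀) =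
      l' - ((u * (a + a') + v * (b' - b) : ℤ) : ℂ) • hvec r k₀ := by
    rw [map_sub, map_smul, GG_hvec, he]
    have h5 : ((a' : ℂ) / r) = ((u * (a + a') + v * (b' - b) : ℤ) : ℂ) - (a : ℂ) / r := by
      field_simp
      linear_combination h3
    rw [h5]
    module
  rw [h4]
  exact Lam_sub hl' (Lam_zsmul _ (hvec_mem r k₀))

theorem GG_image' : GG r k₀ u v hr huv '' LamX n r k₀ = Lam := by
  apply Set.Subset.antisymm
  · rintro _ ⟨x, hx, rfl⟩
    exact GG_mem' hx
  · intro y hy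
    exact ⟨_, GG_symm_mem' (n := n) (hr := hr) (huv := huv) hy, by simp⟩

theorem GG_marking : IsMarkingE n r k₀ (wvec γ r k₀) (GG r k₀ u v hr huv) := by
  refine ⟨fun x y => GG_isom x y, GG_wvec, GG_image, Or.inl ?_⟩
  rw [map_smul, GG_delta, sub_self]
  refine LamX_iff.mpr ⟨0, 0, 0, ?_, ?_, by simp⟩
  · have := Lam_sub delta_mem delta_mem
    rwa [sub_self] at this
  · rw [bbf_hvec]; simp

theorem GG_sq_mon (hn : 2 ≤ n) :
    IsMonE n (wvec γ r k₀) ((GG r k₀ u v hr huv).trans (GG r k₀ u v hr huv)) := by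
  refine mon_of_delta (ε := 1) hn (fun x y => ?_) ?_ (image_trans (GG_image (n := n)) GG_image')
    (Or.inl rfl) ?_
  · simp [GG_isom]
  · simp [GG_wvec]
  · rw [LinearEquiv.trans_apply]
    unfold dd
    rw [map_smul, map_smul, GG_delta, GG_delta, Int.cast_one, one_smul, sub_self]
    have := Lam_sub delta_mem delta_mem
    rwa [sub_self] at this

end Pool.Agent.Helper93.EB
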