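import Mathlib
import Pool.Agent.Helper93.EB.Mark

/-! Facts on `w` and the construction of the self-map. -/

namespace Pool.Agent.Helper93.EB

variable {n γ m r k₀ : ℕ}

/-- what is needed from the numerical data -/
theorem data_facts (hd : IsData n γ m r k₀) :
    2 ≤ n ∧ (γ = 1 ∨ γ = 2) ∧ 1 ≤ r ∧ (∃ u v : ℤ, (r : ℤ) * u + k₀ * v = 1) ∧
    ((γ = 1 ∧ ∃ r' : ℕ, r = 2 * r' ∧ (m : ℤ) = r' * (2 * k₀ - r' * ((n : ℤ) - 1))) ∨
      (γ = 2 ∧ Odd r ∧ (m : ℤ) = r * (4 * k₀ - r * ((n : ℤ) - 1)))) := by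
  obtain ⟨hn, hm, h | h⟩ := hd
  · obtain ⟨rfl, r', h1, h2, h3, rfl, h5⟩ := h
    refine ⟨hn, Or.inl rfl, by omega, ?_, Or.inl ⟨rfl, r', rfl, h5⟩⟩
    have hc : IsCoprime ((2 * r' : ℕ) : ℤ) (k₀ : ℤ) :=
      (Nat.isCoprime_iff_coprime.mpr h3).symm
    obtain ⟨u, v, huv⟩ := hc
    exact ⟨u, v, by linear_combination huv⟩
  · obtain ⟨rfl, h1, h2, h3, k, h4, h5, h6⟩ := h
    refine ⟨hn, Or.inr rfl, by omega, ?_, Or.inr ⟨rfl, h2, ?_⟩⟩
    · have hc : IsCoprime (r : ℤ) (k : ℤ) := Nat.isCoprime_iff_coprime.mpr h5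
      obtain ⟨u, v, huv⟩ := hc
      refine ⟨u - v * ((n : ℤ) - 1), 4 * v, ?_⟩
      linear_combination huv + v * h6
    · rw [h6, h4]
      push_cast
      ring

theorem wvec_zero : (wvec γ r k₀).1 0 = ((γ : ℂ), (γ : ℂ) * (r * k₀)) := by
  simp [wvec, hvec, delta]

theorem wvec_one : (wvec γ r k₀).1 1 = 0 := by
  simp [wvec, hvec, delta]

theorem wvec_two : (wvec γ r k₀).1 2 = 0 := by
  simp [wvec, hvec, delta]

theorem wvec_E : (wvec γ r k₀).2.1 = 0 := by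
  simp [wvec, hvec, delta]

theorem wvec_delta : (wvec γ r k₀).2.2 = - (γ : ℂ) * r / 2 := by
  simp [wvec, hvec, delta]; ring

/-- `γ r / 2` is an integer -/
theorem half_int (hd : IsData n γ m r k₀) : ∃ t : ℤ, (γ : ℂ) * r / 2 = t := by
  obtain ⟨_, _, _, _, ⟨rfl, r', rfl, _⟩ | ⟨rfl, _, _⟩⟩ := data_facts hd
  · exact ⟨r', by push_cast; ring⟩
  · exact ⟨r, by push_cast; ring⟩

theorem wvec_mem (hd : IsData n γ m r k₀) : wvec γ r k₀ ∈ Lam := by
  obtain ⟨t, ht⟩ := half_int hd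
  refine ⟨fun i => ?_, fun j a => ⟨0, by rw [wvec_E]; simp⟩, ⟨-t, ?_⟩⟩
  · fin_cases i
    · exact ⟨⟨γ, by simp only [Fin.zero_eta, wvec_zero]; push_cast; rfl⟩,
        ⟨γ * (r * k₀), by simp only [Fin.zero_eta, wvec_zero]; push_cast; rfl⟩⟩
    · exact ⟨⟨0, by simp only [Fin.mk_one, wvec_one]; simp⟩,
        ⟨0, by simp only [Fin.mk_one, wvec_one]; simp⟩⟩
    · exact ⟨⟨0, by simp only [Fin.reduceFinMk, wvec_two]; simp⟩,
        ⟨0, by simp only [Fin.reduceFinMk, wvec_two]; simp⟩⟩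
  · rw [wvec_delta]
    push_cast
    rw [← ht]
    ring

theorem bbf_wvec (x : V) : bbf n x (wvec γ r k₀) =
    (γ : ℂ) * ((x.1 0).1 * (r * k₀) + (x.1 0).2 + r * ((n : ℂ) - 1) * x.2.2) := by
  unfold wvec
  rw [bbf_smul_right, bbf_sub_right, bbf_smul_right, bbf_hvec, bbf_delta]
  ring

theorem wvec_sq (hd : IsData n γ m r k₀) :
    bbf n (wvec γ r k₀) (wvec γ r k₀) = 2 * m := by
  rw [bbf_wvec, wvec_zero, wvec_delta]
  obtain ⟨_, _, _, _, ⟨rfl, r', rfl, h⟩ | ⟨rfl, _, h⟩⟩ := data_facts hd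
  · have h' : (m : ℂ) = r' * (2 * k₀ - r' * ((n : ℂ) - 1)) := by exact_mod_cast h
    rw [h']; push_cast; ring
  · have h' : (m : ℂ) = r * (4 * k₀ - r * ((n : ℂ) - 1)) := by exact_mod_cast h
    rw [h']; push_cast; ring

theorem wvec_div (x : V) (hx : x ∈ Lam) : ∃ a : ℤ, bbf n (wvec γ r k₀) x = γ * a := by
  obtain ⟨h1, h2, h3⟩ := hx
  obtain ⟨p, hp⟩ := (h1 0).1
  obtain ⟨q, hq⟩ := (h1 0).2
  obtain ⟨d, hd⟩ := h3
  refine ⟨p * (r * k₀) + q + r * ((n : ℤ) - 1) * d, ?_⟩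
  rw [bbf_comm, bbf_wvec, hp, hq, hd]
  push_cast
  ring

theorem wvec_div' : ∃ x ∈ Lam, bbf n (wvec γ r k₀) x = γ := by
  refine ⟨fU 0, fU_mem 0, ?_⟩
  rw [bbf_comm, bbf_wvec]
  simp [fU]

/-- a rational multiple of `w` in the lattice is an integral multiple -/
theorem wvec_prim (hd : IsData n γ m r k₀) {c : ℂ} (h : c • wvec γ r k₀ ∈ Lam) :
    ∃ a : ℤ, c = a := by
  obtain ⟨h1, _, h3⟩ := h
  obtain ⟨p, hp⟩ := (h1 0).1
  obtain ⟨q, hq⟩ := h3
  have hp' : c * γ = p := by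
    have : (c • wvec γ r k₀).1 0 = c • (wvec γ r k₀).1 0 := rfl
    rw [this, wvec_zero] at hp
    simpa using hp
  have hq' : c * (- (γ : ℂ) * r / 2) = q := by
    have : (c • wvec γ r k₀).2.2 = c * (wvec γ r k₀).2.2 := rfl
    rw [this, wvec_delta] at hq
    exact hq
  obtain ⟨_, _, _, _, ⟨rfl, r', rfl, _⟩ | ⟨rfl, ⟨s, hs⟩, _⟩⟩ := data_facts hd
  · exact ⟨p, by simpa using hp'⟩
  · -- `2 c = p`, `- r c = q`, `r = 2 s + 1`
    refine ⟨-q - s * p, ?_⟩
    have hr : (r : ℂ) = 2 * s + 1 := by exact_mod_cast hs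
    rw [hr] at hq'
    push_cast at hp' hq' ⊢
    rw [← hp', ← hq']
    ring

theorem wvec_primitive (hd : IsData n γ m r k₀) (t : ℕ) (x : V) (hx : x ∈ Lam)
    (h : wvec γ r k₀ = (t : ℂ) • x) : t = 1 := by
  have ht : (t : ℂ) ≠ 0 := by
    intro h0
    rw [h0, zero_smul] at h
    have h1 : (wvec γ r k₀).1 0 = 0 := by rw [h]; rfl
    rw [wvec_zero] at h1
    have h2 : (γ : ℂ) = 0 := congrArg Prod.fst h1
    have h3 : γ = 0 := by exact_mod_cast h2
    obtain ⟨_, h4 | h4, _⟩ := data_facts hd <;> omega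
  have h1 : ((1 : ℂ) / t) • wvec γ r k₀ ∈ Lam := by
    rw [h, smul_smul, one_div, inv_mul_cancel₀ ht, one_smul]; exact hx
  obtain ⟨a, ha⟩ := wvec_prim hd h1
  have h2 : (1 : ℂ) = a * t := by rw [← ha]; field_simp
  have h3 : (1 : ℤ) = a * t := by exact_mod_cast h2
  have h4 : (t : ℤ) ∣ 1 := ⟨a, by linarith [mul_comm a (t : ℤ)]⟩
  have h5 : t ∣ 1 := by exact_mod_cast h4
  exact Nat.dvd_one.mp h5

theorem domain_nonempty : (periodDomain n (wvec γ r k₀)).Nonempty := by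
  refine ⟨(![(0, 0), (1, 1), (Complex.I, Complex.I)], 0, 0), ?_, ?_, ?_⟩
  · simp [bbf, Fin.sum_univ_three]
  · simp [bbf, Fin.sum_univ_three]
  · rw [bbf_wvec]; simp

theorem picard (hd : IsData n γ m r k₀) (σ : V)
    (h : ∀ x ∈ Lam, bbf n x σ = 0 → ∃ a : ℤ, x = (a : ℂ) • wvec γ r k₀) :
    ∀ x ∈ LamX n r k₀, bbf n x σ = 0 → ∃ a : ℤ, x = (a : ℂ) • wvec γ r k₀ := by
  obtain ⟨hn, hγ, hr, ⟨u, v, huv⟩, _⟩ := data_facts hd
  have hr0 : (r : ℂ) ≠ 0 := by
    have : r ≠ 0 := by omega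
    exact_mod_cast this
  have huv' : (r : ℂ) * u + (k₀ : ℂ) * v = 1 := by exact_mod_cast huv
  intro x hx h0
  obtain ⟨a, b, l, hl, _, hx2⟩ := LamX_iff.mp hx
  have h1 : (r : ℂ) • x ∈ Lam := by
    rw [hx2, smul_sub, smul_smul, mul_div_cancel₀ _ hr0]
    exact Lam_sub (by simpa using Lam_zsmul (r : ℤ) hl) (Lam_zsmul a (hvec_mem r k₀))
  obtain ⟨c, hc⟩ := h _ h1 (by rw [bbf_smul_left, h0, mul_zero])
  have h2 : x = ((c : ℂ) / r) • wvec γ r k₀ := by
    rw [div_eq_inv_mul, ← smul_smul, ← hc, smul_smul, inv_mul_cancel₀ hr0, one_smul]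
  have h3 := GG_symm_mem (hr := hr0) (huv := huv') hx
  have h4 : (GG r k₀ u v hr0 huv').symm (wvec γ r k₀) = wvec γ r k₀ := symm_fix GG_wvec
  rw [h2, map_smul, h4] at h3
  obtain ⟨e, he⟩ := wvec_prim hd h3
  exact ⟨e, by rw [h2, he]⟩

theorem mon_congr {w : V} {g g' : V ≃ₗ[ℂ] V} (h : ∀ x, g x = g' x) (hg : IsMonE n w g) :
    IsMonE n w g' := by
  have : g = g' := LinearEquiv.ext h
  rwa [← this]

/-- the square of a marking is a monodromy operator -/
theorem marking_sq (hd : IsData n γ m r k₀) {g : V ≃ₗ[ℂ] V}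
    (hg : IsMarkingE n r k₀ (wvec γ r k₀) g) : IsMonE n (wvec γ r k₀) (g.trans g) := by
  obtain ⟨hn, hγ, hr, ⟨u, v, huv⟩, _⟩ := data_facts hd
  have hr0 : (r : ℂ) ≠ 0 := by
    have : r ≠ 0 := by omega
    exact_mod_cast this
  have hγ0 : (γ : ℂ) ≠ 0 := by
    have : γ ≠ 0 := by omega
    exact_mod_cast this
  have huv' : (r : ℂ) * u + (k₀ : ℂ) * v = 1 := by exact_mod_cast huv
  have hM : IsMarkingE n r k₀ (wvec γ r k₀) (GG r k₀ u v hr0 huv') := GG_marking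
  -- `f = G⁻¹ g`, so `g² = G f G f = G² (G⁻¹ f G) f`
  have hf := marking_marking hn hg hM
  have h1 := marking_conj hn hγ0 hr0 hM hf
  have h2 := mon_trans hn (mon_trans hn hf h1) (GG_sq_mon (hr := hr0) (huv := huv') hn)
  refine mon_congr (fun x => ?_) h2
  simp

/-- a marking normalises the monodromy group -/
theorem marking_normal (hd : IsData n γ m r k₀) {g : V ≃ₗ[ℂ] V}
    (hg : IsMarkingE n r k₀ (wvec γ r k₀) g) (f : V ≃ₗ[ℂ] V) :
    IsMonE n (wvec γ r k₀) f ↔ IsMonE n (wvec γ r k₀) ((g.trans f).trans g.symm) := by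
  obtain ⟨hn, hγ, hr, _, _⟩ := data_facts hd
  have hr0 : (r : ℂ) ≠ 0 := by
    have : r ≠ 0 := by omega
    exact_mod_cast this
  have hγ0 : (γ : ℂ) ≠ 0 := by
    have : γ ≠ 0 := by omega
    exact_mod_cast this
  refine ⟨fun hf => marking_conj hn hγ0 hr0 hg hf, fun hf => ?_⟩
  -- `f = g² (g⁻¹ (g⁻¹ f g) g) g⁻²`
  have h1 := marking_conj hn hγ0 hr0 hg hf
  have h2 := mon_trans hn (mon_trans hn (mon_symm hn (marking_sq hd hg)) h1) (marking_sq hd hg)
  refine mon_congr (fun x => ?_) h2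
  simp

/-- the action of the inverse of a marking on the period domain -/
noncomputable def act {w : V} {g : V ≃ₗ[ℂ] V} (hg : IsMarkingE n r k₀ w g)
    (σ : periodDomain n w) : periodDomain n w :=
  ⟨g.symm σ, domain_map_symm hg.isom hg.fix (marking_star hg) σ.2⟩

theorem act_rel (hn : 2 ≤ n) (hγ : (γ : ℂ) ≠ 0) (hr : (r : ℂ) ≠ 0) {g : V ≃ₗ[ℂ] V}
    (hg : IsMarkingE n r k₀ (wvec γ r k₀) g) {σ τ : periodDomain n (wvec γ r k₀)}
    (h : periodRel n (wvec γ r k₀) σ τ) : periodRel n (wvec γ r k₀) (act hg σ) (act hg τ) := by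
  obtain ⟨f, hf, c, hc, h1⟩ := h
  refine ⟨_, mon_ofE (marking_conj hn hγ hr hg (mon_toE hf)), c, hc, ?_⟩
  change g.symm (τ : V) = c • g.symm (f (g (g.symm (σ : V))))
  rw [h1, map_smul, LinearEquiv.apply_symm_apply]

theorem linEquiv_continuous (g : V ≃ₗ[ℂ] V) : Continuous g :=
  LinearMap.continuous_of_finiteDimensional g.toLinearMap

/-- The self-map of the period space. -/
theorem exists_map (hd : IsData n γ m r k₀) :
    ∃ μ : PeriodSpace n (wvec γ r k₀) → PeriodSpace n (wvec γ r k₀),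
      IsPeriodMap n r k₀ (wvec γ r k₀) μ ∧ Continuous μ ∧ (∀ p, μ (μ p) = p) ∧
      ∀ μ', IsPeriodMap n r k₀ (wvec γ r k₀) μ' → μ' = μ := by
  obtain ⟨hn, hγ, hr, ⟨u, v, huv⟩, _⟩ := data_facts hd
  have hr0 : (r : ℂ) ≠ 0 := by
    have : r ≠ 0 := by omega
    exact_mod_cast this
  have hγ0 : (γ : ℂ) ≠ 0 := by
    have : γ ≠ 0 := by omega
    exact_mod_cast this
  have huv' : (r : ℂ) * u + (k₀ : ℂ) * v = 1 := by exact_mod_cast huv
  have hM : IsMarkingE n r k₀ (wvec γ r k₀) (GG r k₀ u v hr0 huv') := GG_marking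
  let μ : PeriodSpace n (wvec γ r k₀) → PeriodSpace n (wvec γ r k₀) :=
    Quot.map (act hM) (fun σ τ h => act_rel hn hγ0 hr0 hM h)
  have hμ : IsPeriodMap n r k₀ (wvec γ r k₀) μ := by
    intro g hg σ τ hτ
    change Quot.mk _ (act hM σ) = Quot.mk _ τ
    -- `τ = g⁻¹ σ = (g⁻¹ G) (G⁻¹ σ)`
    refine Quot.sound ⟨_, mon_ofE (marking_marking hn hM (marking_toE hg)), 1, one_ne_zero, ?_⟩
    change (τ : V) = (1 : ℂ) • (toE hg.isometry).symm
      (GG r k₀ u v hr0 huv' ((GG r k₀ u v hr0 huv').symm (σ : V)))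
    rw [LinearEquiv.apply_symm_apply, one_smul, LinearEquiv.eq_symm_apply]
    exact hτ
  refine ⟨μ, hμ, ?_, ?_, ?_⟩
  · refine continuous_quot_lift _ ?_
    refine continuous_quot_mk.comp ?_
    refine Continuous.subtype_mk ?_ _
    exact (linEquiv_continuous (GG r k₀ u v hr0 huv').symm).comp continuous_subtype_val
  · intro p
    induction p using Quot.ind with
    | mk σ =>
      change Quot.mk _ (act hM (act hM σ)) = Quot.mk _ σ
      refine Quot.sound ⟨_, mon_ofE (GG_sq_mon (hr := hr0) (huv := huv') hn), 1, one_ne_zero, ?_⟩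
      change (σ : V) = (1 : ℂ) • GG r k₀ u v hr0 huv' (GG r k₀ u v hr0 huv'
        ((GG r k₀ u v hr0 huv').symm ((GG r k₀ u v hr0 huv').symm (σ : V))))
      rw [LinearEquiv.apply_symm_apply, LinearEquiv.apply_symm_apply, one_smul]
  · intro μ' hμ'
    funext p
    induction p using Quot.ind with
    | mk σ =>
      refine hμ' _ (marking_ofE hM) σ (act hM σ) ?_
      change GG r k₀ u v hr0 huv' ((GG r k₀ u v hr0 huv').symm (σ : V)) = σ
      rw [LinearEquiv.apply_symm_apply]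

theorem normalises (hd : IsData n γ m r k₀) {g : V → V}
    (hg : IsMarking n r k₀ (wvec γ r k₀) g) : Normalises n (wvec γ r k₀) g := by
  have hE := marking_toE hg
  have hc : ∀ x, (toE hg.isometry) x = g x := fun x => rfl
  refine ⟨fun σ => ⟨fun h => ?_, fun h => domain_map hE.isom hE.fix (marking_star hE) h⟩,
    fun f f' hff => ?_, mon_ofE (marking_sq hd hE)⟩
  · have h1 := domain_map_symm hE.isom hE.fix (marking_star hE) h
    rw [← hc, LinearEquiv.symm_apply_apply] at h1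
    exact h1
  · have h2 : ∀ x, f (g x) = g (f' x) := fun x => congrFun hff x
    constructor
    · intro hf
      have h3 := (marking_normal hd hE (toE hf.isometry)).mp (mon_toE hf)
      have h4 := mon_ofE h3
      have h5 : ⇑(((toE hg.isometry).trans (toE hf.isometry)).trans (toE hg.isometry).symm) = f' := by
        funext x
        change (toE hg.isometry).symm (f (g x)) = f' x
        rw [h2, ← hc, LinearEquiv.symm_apply_apply]
      rw [h5] at h4
      exact h4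
    · intro hf'
      -- `f = g f' g⁻¹`
      have h3 := (marking_normal hd hE
        (((toE hg.isometry).symm.trans (toE hf'.isometry)).trans (toE hg.isometry))).mpr ?_
      · have h4 := mon_ofE h3
        have h5 : ⇑(((toE hg.isometry).symm.trans (toE hf'.isometry)).trans (toE hg.isometry))
            = f := by
          funext x
          change g (f' ((toE hg.isometry).symm x)) = f x
          rw [← h2, ← hc, LinearEquiv.apply_symm_apply]
        rw [h5] at h4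
        exact h4
      · refine mon_congr (fun x => ?_) (mon_toE hf')
        simp

end Pool.Agent.Helper93.EB
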