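import Mathlib
import Pool.Agent.Helper93.EB.Final

/-! When is the self-map of the period space the identity?  General tools. -/

namespace Pool.Agent.Helper93.EB

variable {n γ m r k₀ : ℕ} {w : V}

theorem marking_of_dd {g : V ≃ₗ[ℂ] V} (hiso : ∀ x y, bbf n (g x) (g y) = bbf n x y)
    (hw : g w = w) (hL : g '' Lam = LamX n r k₀) {ε : ℤ} (hε : ε = 1 ∨ ε = -1)
    (hd : g (dd n) - (ε : ℂ) • dd n ∈ LamX n r k₀) : IsMarkingE n r k₀ w g := by
  refine ⟨hiso, hw, hL, ?_⟩
  rcases hε with rfl | rfl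
  · left
    rw [Int.cast_one, one_smul] at hd
    exact hd
  · right
    rw [Int.cast_neg, Int.cast_one, neg_one_smul, sub_neg_eq_add] at hd
    exact hd

/-- a monodromy operator followed by a marking is a marking -/
theorem marking_comp (hn : 2 ≤ n) {f g : V ≃ₗ[ℂ] V} (hf : IsMonE n w f)
    (hg : IsMarkingE n r k₀ w g) : IsMarkingE n r k₀ w (f.trans g) := by
  obtain ⟨ε, hε, hd⟩ := mon_dd hn hf
  obtain ⟨ε', hε', hd'⟩ := marking_dd hg
  refine marking_of_dd (ε := ε * ε') (fun x y => ?_) ?_ ?_ ?_ ?_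
  · simp [hf.isom, hg.isom]
  · simp [hf.fix, hg.fix]
  · exact image_trans hf.map hg.map
  · rcases hε with rfl | rfl <;> rcases hε' with rfl | rfl <;> simp
  · have h1 : (f.trans g) (dd n) - ((ε * ε' : ℤ) : ℂ) • dd n =
        g (f (dd n) - (ε : ℂ) • dd n) + (ε : ℂ) • (g (dd n) - (ε' : ℂ) • dd n) := by
      rw [LinearEquiv.trans_apply, map_sub, map_smul, smul_sub, smul_smul]
      rcases hε with rfl | rfl <;> rcases hε' with rfl | rfl <;> push_cast <;> module
    rw [h1]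
    exact LamX_add (mem_of_map hg.map hd) (LamX_zsmul ε hd')

theorem rel_equiv (hn : 2 ≤ n) : Equivalence (periodRel n w) where
  refl σ := ⟨_, mon_ofE (mon_refl hn), 1, one_ne_zero, by simp⟩
  symm := by
    rintro σ τ ⟨f, hf, c, hc, h⟩
    refine ⟨_, mon_ofE (mon_symm hn (mon_toE hf)), c⁻¹, inv_ne_zero hc, ?_⟩
    have h1 : (τ : V) = c • (toE hf.isometry) (σ : V) := h
    rw [h1, map_smul, LinearEquiv.symm_apply_apply, smul_smul, inv_mul_cancel₀ hc, one_smul]
  trans := by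
    rintro σ τ ρ ⟨f, hf, c, hc, h⟩ ⟨f', hf', c', hc', h'⟩
    refine ⟨_, mon_ofE (mon_trans hn (mon_toE hf) (mon_toE hf')), c' * c, mul_ne_zero hc' hc, ?_⟩
    have h1 : (τ : V) = c • (toE hf.isometry) (σ : V) := h
    have h2 : (ρ : V) = c' • (toE hf'.isometry) (τ : V) := h'
    rw [h2, h1, map_smul, smul_smul, LinearEquiv.trans_apply]

/-- If the self-map is the identity then every period is an eigenvector of a marking. -/
theorem id_gives (hd : IsData n γ m r k₀)
    {μ : PeriodSpace n (wvec γ r k₀) → PeriodSpace n (wvec γ r k₀)}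
    (hμ : IsPeriodMap n r k₀ (wvec γ r k₀) μ) (hid : ∀ p, μ p = p) {σ : V}
    (hσ : σ ∈ periodDomain n (wvec γ r k₀)) :
    ∃ A : V ≃ₗ[ℂ] V, IsMarkingE n r k₀ (wvec γ r k₀) A ∧ ∃ c : ℂ, A σ = c • σ := by
  obtain ⟨hn, hγ, hr, ⟨u, v, huv⟩, _⟩ := data_facts hd
  have hr0 : (r : ℂ) ≠ 0 := by
    have : r ≠ 0 := by omega
    exact_mod_cast this
  have huv' : (r : ℂ) * u + (k₀ : ℂ) * v = 1 := by exact_mod_cast huv
  have hM : IsMarkingE n r k₀ (wvec γ r k₀) (GG r k₀ u v hr0 huv') := GG_marking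
  have h1 : μ (Quot.mk _ ⟨σ, hσ⟩) = Quot.mk _ (act hM ⟨σ, hσ⟩) := by
    refine hμ _ (marking_ofE hM) ⟨σ, hσ⟩ (act hM ⟨σ, hσ⟩) ?_
    change GG r k₀ u v hr0 huv' ((GG r k₀ u v hr0 huv').symm σ) = σ
    rw [LinearEquiv.apply_symm_apply]
  rw [hid] at h1
  have h2 : periodRel n (wvec γ r k₀) ⟨σ, hσ⟩ (act hM ⟨σ, hσ⟩) :=
    ((rel_equiv hn).eqvGen_iff).mp (Quot.eqvGen_exact h1)
  obtain ⟨f, hf, c, hc, h⟩ := h2
  have h3 : (GG r k₀ u v hr0 huv').symm σ = c • (toE hf.isometry) σ := h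
  refine ⟨_, marking_comp hn (mon_toE hf) hM, c⁻¹, ?_⟩
  rw [LinearEquiv.trans_apply]
  have h4 : σ = c • GG r k₀ u v hr0 huv' ((toE hf.isometry) σ) := by
    rw [← map_smul, ← h3, LinearEquiv.apply_symm_apply]
  conv_rhs => rw [h4]
  rw [smul_smul, inv_mul_cancel₀ hc, one_smul]

/-- an isometry with real matrix for which `τ + i ρ` is an eigenvector rotates the plane -/
theorem rotation {A : V ≃ₗ[ℂ] V} (hiso : ∀ x y, bbf n (A x) (A y) = bbf n x y)
    (hs : ∀ x, A (star x) = star (A x)) {τ ρ : V} (hτ : star τ = τ) (hρ : star ρ = ρ)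
    {t : ℝ} (ht : 0 < t) (h1 : bbf n τ τ = t) {c : ℂ}
    (h : A (τ + Complex.I • ρ) = c • (τ + Complex.I • ρ)) (h2 : bbf n ρ ρ = t)
    (h3 : bbf n τ ρ = 0) :
    ∃ p q : ℝ, p ^ 2 + q ^ 2 = 1 ∧ A τ = (p : ℂ) • τ - (q : ℂ) • ρ ∧
      A ρ = (q : ℂ) • τ + (p : ℂ) • ρ := by
  have hI : star (τ + Complex.I • ρ) = τ - Complex.I • ρ := by
    rw [star_add, star_smul, hτ, hρ]
    have : star Complex.I = - Complex.I := Complex.conj_I
    rw [this]; module
  have h4 : A (τ - Complex.I • ρ) = (star c) • (τ - Complex.I • ρ) := by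
    rw [← hI, hs, h, star_smul, hI]
  have hcc : c = (c.re : ℂ) + (c.im : ℂ) * Complex.I := (Complex.re_add_im c).symm
  have hsc : star c = (c.re : ℂ) - (c.im : ℂ) * Complex.I := by
    apply Complex.ext <;> simp
  rw [map_add, map_smul] at h
  rw [map_sub, map_smul] at h4
  have h5 : A τ = (c.re : ℂ) • τ - (c.im : ℂ) • ρ := by
    have : (2 : ℂ) • A τ = c • (τ + Complex.I • ρ) + (star c) • (τ - Complex.I • ρ) := by
      rw [← h, ← h4]; module
    rw [hsc] at this
    rw [hcc] at this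
    have h6 : A τ = (1 / 2 : ℂ) • ((2 : ℂ) • A τ) := by module
    rw [h6, this]
    simp only [Complex.add_re, Complex.ofReal_re, Complex.mul_re, Complex.I_re, mul_zero,
      Complex.ofReal_im, Complex.I_im, mul_one, sub_self, add_zero, Complex.add_im,
      Complex.mul_im, zero_add]
    have hI2 : Complex.I * Complex.I = -1 := Complex.I_mul_I
    have e : (1 / 2 : ℂ) • ((((c.re : ℂ) + (c.im : ℂ) * Complex.I)) • (τ + Complex.I • ρ)
        + ((c.re : ℂ) - (c.im : ℂ) * Complex.I) • (τ - Complex.I • ρ))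
        = (c.re : ℂ) • τ + ((c.im : ℂ) * (Complex.I * Complex.I)) • ρ := by module
    rw [e, hI2]; module
  have h6 : A ρ = (c.im : ℂ) • τ + (c.re : ℂ) • ρ := by
    have h7 : Complex.I • A ρ = Complex.I • ((c.im : ℂ) • τ + (c.re : ℂ) • ρ) := by
      have : Complex.I • A ρ = c • (τ + Complex.I • ρ) - A τ := by rw [← h]; module
      rw [this, h5]
      conv_lhs => rw [hcc]
      simp only [Complex.add_re, Complex.ofReal_re, Complex.mul_re, Complex.I_re, mul_zero,
        Complex.ofReal_im, Complex.I_im, mul_one, sub_self, add_zero, Complex.add_im,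
        Complex.mul_im, zero_add]
      have hI2 : Complex.I * Complex.I = -1 := Complex.I_mul_I
      have e : ((c.re : ℂ) + (c.im : ℂ) * Complex.I) • (τ + Complex.I • ρ)
          - ((c.re : ℂ) • τ - (c.im : ℂ) • ρ)
          = Complex.I • ((c.im : ℂ) • τ + (c.re : ℂ) • ρ)
            + ((c.im : ℂ) * (Complex.I * Complex.I + 1)) • ρ := by module
      rw [e, hI2]; simp
    have h8 := congrArg (fun z => (-Complex.I) • z) h7
    simp only [smul_smul] at h8
    have hI2 : -Complex.I * Complex.I = 1 := by rw [neg_mul, Complex.I_mul_I, neg_neg]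
    rw [hI2, one_smul, one_smul] at h8
    exact h8
  refine ⟨c.re, c.im, ?_, h5, h6⟩
  have h7 := hiso τ τ
  rw [h5, bbf_sub_left, bbf_sub_right, bbf_sub_right, bbf_smul_left, bbf_smul_right,
    bbf_smul_left, bbf_smul_right, bbf_smul_left, bbf_smul_right, bbf_smul_left, bbf_smul_right,
    bbf_comm n ρ τ, h1, h2, h3] at h7
  have h8 : ((c.re ^ 2 + c.im ^ 2) * t : ℝ) = t := by
    have : (((c.re ^ 2 + c.im ^ 2) * t : ℝ) : ℂ) = (t : ℂ) := by
      push_cast
      linear_combination h7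
    exact_mod_cast this
  have h9 : (c.re ^ 2 + c.im ^ 2 - 1) * t = 0 := by linarith
  rcases mul_eq_zero.mp h9 with h10 | h10
  · linarith
  · exact absurd h10 ht.ne'

theorem domain_of {τ ρ : V} (hτ : star τ = τ) (hρ : star ρ = ρ)
    {t : ℝ} (ht : 0 < t) (h1 : bbf n τ τ = t) (h2 : bbf n ρ ρ = t) (h3 : bbf n τ ρ = 0)
    (h4 : bbf n τ w = 0) (h5 : bbf n ρ w = 0) : τ + Complex.I • ρ ∈ periodDomain n w := by
  have hI : star (τ + Complex.I • ρ) = τ - Complex.I • ρ := by
    rw [star_add, star_smul, hτ, hρ]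
    have : star Complex.I = - Complex.I := Complex.conj_I
    rw [this]; module
  have hI2 : Complex.I * Complex.I = -1 := Complex.I_mul_I
  refine ⟨?_, ?_, ?_⟩
  · rw [bbf_add_left, bbf_add_right, bbf_add_right, bbf_smul_left, bbf_smul_right,
      bbf_smul_left, bbf_smul_right, bbf_comm n ρ τ, h1, h2, h3]
    linear_combination (t : ℂ) * hI2
  · have : bbf n (τ + Complex.I • ρ) (star (τ + Complex.I • ρ)) = ((2 * t : ℝ) : ℂ) := by
      rw [hI, bbf_add_left, bbf_sub_right, bbf_sub_right, bbf_smul_left, bbf_smul_right,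
        bbf_smul_left, bbf_smul_right, bbf_comm n ρ τ, h1, h2, h3]
      push_cast
      linear_combination (-(t : ℂ)) * hI2
    rw [this, Complex.ofReal_re]
    positivity
  · rw [bbf_add_left, bbf_smul_left, h4, h5]; ring

end Pool.Agent.Helper93.EB
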