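import Mathlib
import Pool.Agent.Helper93.EB.IdA

/-! If the self-map is the identity then `γ = 2` and `k = 1`, or `k = 2` and `n = 3`. -/

namespace Pool.Agent.Helper93.EB

variable {n γ m r k₀ : ℕ} {w : V}

/-- vectors with vanishing `E₈`-coordinates -/
noncomputable def vec (a b c d e f g : ℂ) : V := (![(a, b), (c, d), (e, f)], 0, g)

theorem bbf_vec (n : ℕ) (a b c d e f g a' b' c' d' e' f' g' : ℂ) :
    bbf n (vec a b c d e f g) (vec a' b' c' d' e' f' g') =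
      a * b' + b * a' + (c * d' + d * c') + (e * f' + f * e')
        - 2 * ((n : ℂ) - 1) * (g * g') := by
  simp [bbf, vec, Fin.sum_univ_three]

theorem vec_add (a b c d e f g a' b' c' d' e' f' g' : ℂ) :
    vec a b c d e f g + vec a' b' c' d' e' f' g' =
      vec (a + a') (b + b') (c + c') (d + d') (e + e') (f + f') (g + g') := by
  refine Prod.ext (funext fun i => ?_) (Prod.ext ?_ rfl)
  · fin_cases i <;> simp [vec]
  · simp [vec]

theorem vec_smul (t a b c d e f g : ℂ) :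
    t • vec a b c d e f g =
      vec (t * a) (t * b) (t * c) (t * d) (t * e) (t * f) (t * g) := by
  refine Prod.ext (funext fun i => ?_) (Prod.ext ?_ ?_)
  · fin_cases i <;> simp [vec]
  · simp [vec]
  · simp [vec]

theorem vec_sub (a b c d e f g a' b' c' d' e' f' g' : ℂ) :
    vec a b c d e f g - vec a' b' c' d' e' f' g' =
      vec (a - a') (b - b') (c - c') (d - d') (e - e') (f - f') (g - g') := by
  refine Prod.ext (funext fun i => ?_) (Prod.ext ?_ rfl)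
  · fin_cases i <;> simp [vec]
  · simp [vec]

theorem vec_star {a b c d e f g : ℂ} (ha : star a = a) (hb : star b = b) (hc : star c = c)
    (hd : star d = d) (he : star e = e) (hf : star f = f) (hg : star g = g) :
    star (vec a b c d e f g) = vec a b c d e f g := by
  refine Prod.ext (funext fun i => ?_) (Prod.ext ?_ hg)
  · fin_cases i
    · exact Prod.ext ha hb
    · exact Prod.ext hc hd
    · exact Prod.ext he hf
  · exact star_zero _

theorem wvec_vec : wvec γ r k₀ = vec γ (γ * (r * k₀)) 0 0 0 0 (- (γ * r / 2)) := by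
  refine Prod.ext (funext fun i => ?_) (Prod.ext ?_ ?_)
  · fin_cases i
    · simp only [Fin.zero_eta, wvec_zero]; rfl
    · simp only [Fin.mk_one, wvec_one]; rfl
    · simp only [Fin.reduceFinMk, wvec_two]; rfl
  · rw [wvec_E]; rfl
  · rw [wvec_delta]; change _ = - ((γ : ℂ) * r / 2); ring

theorem dd_vec : dd n = vec 0 0 0 0 0 0 (1 / (2 * ((n : ℂ) - 1))) := by
  refine Prod.ext (funext fun i => ?_) (Prod.ext ?_ ?_)
  · fin_cases i <;> simp [dd, delta, vec] <;> rfl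
  · simp [dd, delta, vec]
  · simp [dd, delta, vec]

theorem vec_mem (a b c d e f g : ℤ) : vec a b c d e f g ∈ Lam := by
  refine ⟨fun i => ?_, fun j l => ⟨0, by simp [vec]⟩, ⟨g, rfl⟩⟩
  fin_cases i
  · exact ⟨⟨a, rfl⟩, ⟨b, rfl⟩⟩
  · exact ⟨⟨c, rfl⟩, ⟨d, rfl⟩⟩
  · exact ⟨⟨e, rfl⟩, ⟨f, rfl⟩⟩

/-- the coordinates of a vector of `LamX` -/
theorem LamX_vec (hr : (r : ℂ) ≠ 0) {a b c d e f g : ℂ} (h : vec a b c d e f g ∈ LamX n r k₀) :
    (∃ s : ℤ, b = r * s) ∧ (∃ s : ℤ, c = s) ∧ (∃ s : ℤ, e = s) ∧ ∃ s : ℤ, g = s := by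
  obtain ⟨A, B, l, ⟨h1, h2, h3⟩, hlh, hl⟩ := LamX_iff.mp h
  have h10 := congrArg (fun x : V => x.1 0) hl
  have h11 := congrArg (fun x : V => x.1 1) hl
  have h12 := congrArg (fun x : V => x.1 2) hl
  have h13 := congrArg (fun x : V => x.2) hl
  simp only [sub_h_zero, sub_h_one, sub_h_two, sub_h_snd] at h10 h11 h12 h13
  obtain ⟨⟨s1, hs1⟩, ⟨s2, hs2⟩⟩ := h1 0
  obtain ⟨⟨s3, hs3⟩, ⟨s4, hs4⟩⟩ := h1 1
  obtain ⟨⟨s5, hs5⟩, ⟨s6, hs6⟩⟩ := h1 2
  obtain ⟨s7, hs7⟩ := h3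
  have hb : b = (l.1 0).2 - (A : ℂ) / r * (r * k₀) := congrArg Prod.snd h10
  have hc : c = (l.1 1).1 := congrArg Prod.fst h11
  have he : e = (l.1 2).1 := congrArg Prod.fst h12
  have hg : g = l.2.2 := congrArg Prod.snd h13
  rw [bbf_hvec, hs1, hs2] at hlh
  refine ⟨⟨B - s1 * k₀, ?_⟩, ⟨s3, by rw [hc, hs3]⟩, ⟨s5, by rw [he, hs5]⟩, ⟨s7, by rw [hg, hs7]⟩⟩
  rw [hb, hs2]
  have h20 : (A : ℂ) / r * (r * k₀) = A * k₀ := by field_simp
  rw [h20]
  push_cast
  linear_combination hlh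

theorem int_small {x : ℝ} {z : ℤ} (h : x = z) (h1 : x ^ 2 < 1) : x = 0 := by
  rw [h] at h1
  have h2 : z ^ 2 < 1 := by exact_mod_cast h1
  have h3 : z = 0 := by nlinarith [sq_nonneg z, h2, Int.le_of_lt_add_one (show z ^ 2 < 0 + 1 by linarith), sq_nonneg (z - 1), sq_nonneg (z + 1)]
  rw [h, h3]; simp

/-- the first period: excludes `γ = 1` and gives `k ∣ 2` -/
theorem first (hd : IsData n γ m r k₀) {M : ℕ} (hM : γ * M = 2 * m) (hM2 : 2 ≤ M) (hMm : m < M * M)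
    (hid : ∀ σ ∈ periodDomain n (wvec γ r k₀), ∃ A : V ≃ₗ[ℂ] V,
      IsMarkingE n r k₀ (wvec γ r k₀) A ∧ ∃ c : ℂ, A σ = c • σ) :
    (∃ s : ℤ, (2 / (M : ℂ)) * (γ * (r * k₀)) - 1 = r * s) ∧
      ∃ s : ℤ, (2 / (M : ℂ)) * (γ * r / 2) = s := by
  obtain ⟨hn, hγ, hr, _, _⟩ := data_facts hd
  have hr0 : (r : ℂ) ≠ 0 := by
    have : r ≠ 0 := by omega
    exact_mod_cast this
  have hM0 : (M : ℂ) ≠ 0 := by
    have : M ≠ 0 := by omega
    exact_mod_cast this
  have hMr : (1 : ℝ) < M := by exact_mod_cast hM2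
  have hMc : (γ : ℂ) * M = 2 * m := by exact_mod_cast hM
  have hw2 := wvec_sq hd
  -- the two vectors
  obtain ⟨τ, hτdef⟩ : ∃ τ, τ = vec (γ : ℂ) (γ * (r * k₀) - M) M M 0 0 (- (γ * r / 2)) := ⟨_, rfl⟩
  obtain ⟨ρ, hρdef⟩ : ∃ ρ, ρ = vec 0 0 0 0 1 ((M : ℂ) * M - m) 0 := ⟨_, rfl⟩
  have hww : 2 * ((γ : ℂ) * (γ * (r * k₀))) - 2 * ((n : ℂ) - 1) * ((γ * r / 2) * (γ * r / 2))
      = 2 * m := by
    rw [← hw2, wvec_vec, bbf_vec]; ring
  have hττ : bbf n τ τ = ((2 * ((M : ℝ) * M - m) : ℝ) : ℂ) := by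
    rw [hτdef, bbf_vec]
    push_cast
    linear_combination hww - 2 * hMc
  have hρρ : bbf n ρ ρ = ((2 * ((M : ℝ) * M - m) : ℝ) : ℂ) := by
    rw [hρdef, bbf_vec]
    push_cast
    ring
  have hτρ : bbf n τ ρ = 0 := by
    rw [hτdef, hρdef, bbf_vec]; ring
  have hτw : bbf n τ (wvec γ r k₀) = 0 := by
    rw [hτdef, wvec_vec, bbf_vec]
    linear_combination hww - hMc
  have hρw : bbf n ρ (wvec γ r k₀) = 0 := by
    rw [hρdef, wvec_vec, bbf_vec]; ring
  have hpos : (0 : ℝ) < 2 * ((M : ℝ) * M - m) := by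
    have : (m : ℝ) < M * M := by exact_mod_cast hMm
    linarith
  have hτs : star τ = τ := by
    rw [hτdef]
    apply vec_star <;> simp
  have hρs : star ρ = ρ := by
    rw [hρdef]
    apply vec_star <;> simp
  obtain ⟨A, hA, c, hc⟩ := hid _ (domain_of hτs hρs hpos hττ hρρ hτρ hτw hρw)
  obtain ⟨p, q, hpq, hAτ, hAρ⟩ := rotation hA.isom (marking_star hA) hτs hρs hpos hττ hc hρρ hτρ
  -- the lattice vector
  have hx : vec 0 1 (-1) (-1) 0 0 0 ∈ Lam := by
    have := vec_mem 0 1 (-1) (-1) 0 0 0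
    simpa using this
  have hx2 : vec 0 1 (-1) (-1) 0 0 0 = (1 / (M : ℂ)) • (wvec γ r k₀ - τ) := by
    rw [wvec_vec, hτdef, vec_sub, vec_smul]
    congr 1 <;> field_simp <;> ring
  have hAx := mem_of_map hA.map hx
  rw [hx2, map_smul, map_sub, hA.fix, hAτ, hτdef, hρdef, wvec_vec, vec_smul, vec_smul, vec_sub,
    vec_sub, vec_smul] at hAx
  obtain ⟨⟨b, hb⟩, ⟨c', hc'⟩, ⟨e, he⟩, ⟨g, hg⟩⟩ := LamX_vec hr0 hAx
  -- `q = 0`
  have hqM : (q : ℂ) / M = e := by
    rw [← he]; field_simp; ring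
  have hqM' : q / M = (e : ℝ) := by
    have : ((q / M : ℝ) : ℂ) = ((e : ℝ) : ℂ) := by push_cast; exact hqM
    exact_mod_cast this
  have hq0 : q = 0 := by
    have h1 : q / M = 0 := by
      refine int_small hqM' ?_
      rw [div_pow, div_lt_one (by positivity)]
      nlinarith [sq_nonneg p]
    have h2 : (M : ℝ) ≠ 0 := by linarith
    exact (div_eq_zero_iff.mp h1).resolve_right h2
  subst hq0
  have hp2 : (p - 1) * (p + 1) = 0 := by linarith [hpq]
  rcases mul_eq_zero.mp hp2 with hp | hp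
  · -- `p = 1`
    exfalso
    have hp1 : p = 1 := by linarith
    subst hp1
    have h1 : (1 : ℂ) = r * b := by
      rw [← hb]
      push_cast
      field_simp
      ring
    have h2 : (1 : ℤ) = r * b := by exact_mod_cast h1
    have h3 : (r : ℤ) ∣ 1 := ⟨b, h2⟩
    have h4 : r ∣ 1 := by exact_mod_cast h3
    have h5 : r = 1 := Nat.dvd_one.mp h4
    obtain ⟨_, _, h | h⟩ := hd
    · obtain ⟨_, r', h6, _, _, h7, _⟩ := h
      omega
    · obtain ⟨_, _, _, h6, _⟩ := h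
      omega
  · have hp1 : p = -1 := by linarith
    subst hp1
    refine ⟨⟨b, ?_⟩, ⟨-g, ?_⟩⟩
    · rw [← hb]
      push_cast
      field_simp
      ring
    · push_cast
      rw [← hg]
      push_cast
      field_simp
      ring

end Pool.Agent.Helper93.EB
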