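import Mathlib
import Pool.Agent.Helper93.EB.IdB

/-! The second period, and the case distinction. -/

namespace Pool.Agent.Helper93.EB

variable {n γ m r k₀ : ℕ} {w : V}

/-- the second period: for `γ = 2`, `k = 2` the map is not the identity unless `n = 3` -/
theorem second (hd : IsData n 2 m r k₀) (hm : m = 2 * r)
    (hid : ∀ σ ∈ periodDomain n (wvec 2 r k₀), ∃ A : V ≃ₗ[ℂ] V,
      IsMarkingE n r k₀ (wvec 2 r k₀) A ∧ ∃ c : ℂ, A σ = c • σ) : n = 3 := by
  obtain ⟨hn, hγ, hr, _, _⟩ := data_facts hd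
  have hr0 : (r : ℂ) ≠ 0 := by
    have : r ≠ 0 := by omega
    exact_mod_cast this
  have hodd : Odd r ∧ 3 ≤ r := by
    obtain ⟨_, _, h | h⟩ := hd
    · omega
    · exact ⟨h.2.2.1, h.2.2.2.1⟩
  obtain ⟨⟨s, hs⟩, hr3⟩ := hodd
  have hsc : (r : ℂ) = 2 * s + 1 := by exact_mod_cast hs
  have hm0 : (m : ℂ) ≠ 0 := by
    have : m ≠ 0 := by omega
    exact_mod_cast this
  have hmr : (1 : ℝ) ≤ m := by exact_mod_cast (show 1 ≤ m by omega)
  have hmc : (m : ℂ) = 2 * r := by exact_mod_cast hm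
  have hN := nm1_ne hn
  have hNr : (1 : ℝ) ≤ (n : ℝ) - 1 := by
    have : (2 : ℝ) ≤ n := by exact_mod_cast hn
    linarith
  have hw2 := wvec_sq hd
  have hww : 2 * ((2 : ℂ) * (2 * (r * k₀))) - 2 * ((n : ℂ) - 1) * (r * r) = 2 * m := by
    rw [← hw2, wvec_vec, bbf_vec]; push_cast; ring
  -- the number `β`
  obtain ⟨B, hB⟩ : ∃ B : ℝ, B = 4 * m ^ 2 - m ^ 2 / ((n : ℝ) - 1) - m := ⟨_, rfl⟩
  have hB1 : (m : ℝ) ^ 2 / ((n : ℝ) - 1) ≤ m ^ 2 := div_le_self (sq_nonneg _) hNr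
  have hB0 : 0 < (m : ℝ) ^ 2 / ((n : ℝ) - 1) := by positivity
  have hBpos : 0 < B := by rw [hB]; nlinarith
  have hBlt : B < 4 * m ^ 2 := by rw [hB]; linarith
  have hBc : (B : ℂ) = 4 * m ^ 2 - m ^ 2 / ((n : ℂ) - 1) - m := by
    rw [hB]; push_cast; ring
  obtain ⟨β, hβ⟩ : ∃ β : ℝ, β = Real.sqrt B := ⟨_, rfl⟩
  have hββ : β * β = B := by rw [hβ]; exact Real.mul_self_sqrt hBpos.le
  have hββc : (β : ℂ) * β = B := by exact_mod_cast hββ
  -- the two vectors
  obtain ⟨τ, hτdef⟩ : ∃ τ, τ = vec 0 0 0 0 (β : ℂ) β 0 := ⟨_, rfl⟩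
  obtain ⟨ρ, hρdef⟩ : ∃ ρ, ρ = vec (-2) (- (2 * m * s) - 2 * (r * k₀)) (2 * m) (2 * m) 0 0
    ((m : ℂ) / ((n : ℂ) - 1) + r) := ⟨_, rfl⟩
  have hττ : bbf n τ τ = ((2 * B : ℝ) : ℂ) := by
    rw [hτdef, bbf_vec]
    push_cast
    linear_combination 2 * hββc
  have hρρ : bbf n ρ ρ = ((2 * B : ℝ) : ℂ) := by
    rw [hρdef, bbf_vec]
    push_cast
    rw [hBc]
    field_simp
    rw [hsc] at hww ⊢
    linear_combination ((n : ℂ) - 1) * hww
  have hτρ : bbf n τ ρ = 0 := by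
    rw [hτdef, hρdef, bbf_vec]; ring
  have hτw : bbf n τ (wvec 2 r k₀) = 0 := by
    rw [hτdef, wvec_vec, bbf_vec]; ring
  have hρw : bbf n ρ (wvec 2 r k₀) = 0 := by
    rw [hρdef, wvec_vec, bbf_vec]
    push_cast
    field_simp
    rw [hsc] at hww ⊢
    linear_combination (-1 : ℂ) * hww
  have hpos : (0 : ℝ) < 2 * B := by linarith
  have hτs : star τ = τ := by
    rw [hτdef]
    apply vec_star <;> simp
  have hρs : star ρ = ρ := by
    rw [hρdef]
    apply vec_star <;> simp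
  obtain ⟨A, hA, c, hc⟩ := hid _ (domain_of hτs hρs hpos hττ hρρ hτρ hτw hρw)
  obtain ⟨p, q, hpq, hAτ, hAρ⟩ := rotation hA.isom (marking_star hA) hτs hρs hpos hττ hc hρρ hτρ
  obtain ⟨ε, hε, hdd⟩ := marking_dd hA
  -- the lattice vector
  have hx : vec 0 (-(s : ℂ)) 1 1 0 0 0 ∈ Lam := by
    have := vec_mem 0 (-(s : ℤ)) 1 1 0 0 0
    simpa using this
  have hAx := LamX_add hdd (mem_of_map hA.map hx)
  have hx2 : dd n + vec 0 (-(s : ℂ)) 1 1 0 0 0 = (1 / (2 * (m : ℂ))) • (wvec 2 r k₀ + ρ) := by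
    rw [dd_vec, wvec_vec, hρdef, vec_add, vec_add, vec_smul]
    congr 1 <;> field_simp <;> push_cast <;> ring
  have hx3 : A (dd n) - (ε : ℂ) • dd n + A (vec 0 (-(s : ℂ)) 1 1 0 0 0) =
      (1 / (2 * (m : ℂ))) • (wvec 2 r k₀ + ((q : ℂ) • τ + (p : ℂ) • ρ)) - (ε : ℂ) • dd n := by
    have h1 : A (dd n) - (ε : ℂ) • dd n + A (vec 0 (-(s : ℂ)) 1 1 0 0 0) =
        A (dd n + vec 0 (-(s : ℂ)) 1 1 0 0 0) - (ε : ℂ) • dd n := by
      rw [map_add]; abel
    rw [h1, hx2, map_smul, map_add, hA.fix, hAρ]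
  rw [hx3, wvec_vec, hτdef, hρdef, dd_vec, vec_smul, vec_smul, vec_add, vec_add, vec_smul,
    vec_smul, vec_sub] at hAx
  obtain ⟨⟨b, hb⟩, ⟨c', hc'⟩, ⟨e, he⟩, ⟨g, hg⟩⟩ := LamX_vec hr0 hAx
  have hqM : (q : ℂ) * β / (2 * m) = e := by
    rw [← he]; field_simp; ring
  have hqM' : q * β / (2 * m) = (e : ℝ) := by
    have : ((q * β / (2 * m) : ℝ) : ℂ) = ((e : ℝ) : ℂ) := by push_cast; exact hqM
    exact_mod_cast this
  have hβ0 : β ≠ 0 := by
    intro h0
    rw [h0] at hββ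
    linarith
  have hq0 : q = 0 := by
    have h1 : q * β / (2 * m) = 0 := by
      refine int_small hqM' ?_
      rw [div_pow, div_lt_one (by positivity), mul_pow]
      have h3 : β ^ 2 = B := by rw [sq]; exact hββ
      rw [h3]
      nlinarith [sq_nonneg p, sq_nonneg q]
    have h2 : (2 * (m : ℝ)) ≠ 0 := by linarith
    have h3 := (div_eq_zero_iff.mp h1).resolve_right h2
    exact (mul_eq_zero.mp h3).resolve_right hβ0
  subst hq0
  have hp2 : (p - 1) * (p + 1) = 0 := by linarith [hpq]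
  rcases mul_eq_zero.mp hp2 with hp | hp
  · exfalso
    have hp1 : p = 1 := by linarith
    subst hp1
    have h1 : -(s : ℂ) = r * b := by
      rw [← hb]
      push_cast
      field_simp
      ring
    have h2 : -(s : ℤ) = r * b := by exact_mod_cast h1
    have h3 : (r : ℤ) ∣ 1 := ⟨1 + 2 * b, by
      have : (r : ℤ) = 2 * s + 1 := by exact_mod_cast hs
      linear_combination -this + 2 * h2⟩
    have h4 : r ∣ 1 := by exact_mod_cast h3
    have h5 : r = 1 := Nat.dvd_one.mp h4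
    omega
  · have hp1 : p = -1 := by linarith
    subst hp1
    -- `- 1/2 - (1 + ε) / (2 N) = g`
    have h1 : -((n : ℂ) - 1) - (1 + ε) = 2 * ((n : ℂ) - 1) * g := by
      rw [← hg]
      push_cast
      rw [hmc]
      field_simp
      ring
    have h2 : -((n : ℤ) - 1) - (1 + ε) = 2 * ((n : ℤ) - 1) * g := by exact_mod_cast h1
    obtain ⟨N, hN⟩ : ∃ N : ℤ, N = (n : ℤ) - 1 := ⟨_, rfl⟩
    have hN1 : 1 ≤ N := by omega
    rw [← hN] at h2
    rcases hε with rfl | rfl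
    · -- `N + 2 = 2 N t` with `t = -g`
      have h3 : N * (2 * (-g) - 1) = 2 := by linear_combination h2
      have h4 : N ∣ 2 := ⟨_, h3.symm⟩
      have h5 : N ≤ 2 := Int.le_of_dvd (by norm_num) h4
      have h6 : N = 1 ∨ N = 2 := by omega
      rcases h6 with h6 | h6
      · rw [h6] at h3; omega
      · omega
    · exfalso
      have h3 : N * (2 * g + 1) = 0 := by linear_combination -h2
      rcases mul_eq_zero.mp h3 with h4 | h4 <;> omega

theorem id_imp (hd : IsData n γ m r k₀)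
    (hid : ∀ σ ∈ periodDomain n (wvec γ r k₀), ∃ A : V ≃ₗ[ℂ] V,
      IsMarkingE n r k₀ (wvec γ r k₀) A ∧ ∃ c : ℂ, A σ = c • σ) :
    γ = 2 ∧ (m = r ∨ (m = 2 * r ∧ n = 3)) := by
  have hd' := hd
  obtain ⟨hn, hm, h | h⟩ := hd'
  · exfalso
    obtain ⟨rfl, r', h1, h2, h3, rfl, h5⟩ := h
    obtain ⟨⟨s, hs⟩, ⟨s', hs'⟩⟩ := first hd (M := 2 * m) (by ring) (by omega) (by nlinarith) hid
    have hm0 : (m : ℂ) ≠ 0 := by
      have : m ≠ 0 := by omega
      exact_mod_cast this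
    have e1 : (2 * r' * k₀ - m : ℂ) = 2 * r' * m * s := by
      have := congrArg (fun z => z * (m : ℂ)) hs
      push_cast at this
      field_simp at this
      linear_combination this
    have e2 : (r' : ℂ) = m * s' := by
      have := congrArg (fun z => z * (m : ℂ)) hs'
      push_cast at this
      field_simp at this
      linear_combination this
    have e1' : (2 * r' * k₀ - m : ℤ) = 2 * r' * m * s := by exact_mod_cast e1
    have e2' : (r' : ℤ) = m * s' := by exact_mod_cast e2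
    have e3 : (m : ℤ) * (2 * (s' * k₀ - r' * s) - 1) = 0 := by
      linear_combination e1' - 2 * (k₀ : ℤ) * e2'
    rcases mul_eq_zero.mp e3 with h6 | h6 <;> omega
  · obtain ⟨rfl, h1, h2, h3, k, h4, h5, h6⟩ := h
    refine ⟨rfl, ?_⟩
    have hk1 : 1 ≤ k := by
      rcases Nat.eq_zero_or_pos k with h | h
      · subst h; omega
      · exact h
    have hm3 : 3 ≤ m := by rw [h4]; nlinarith
    obtain ⟨_, ⟨s, hs⟩⟩ := first hd (M := m) rfl (by omega) (by nlinarith) hid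
    have hm0 : (m : ℂ) ≠ 0 := by
      have : m ≠ 0 := by omega
      exact_mod_cast this
    have e1 : (2 * r : ℂ) = m * s := by
      have := congrArg (fun z => z * (m : ℂ)) hs
      push_cast at this
      field_simp at this
      linear_combination this
    have e1' : (2 * r : ℤ) = m * s := by exact_mod_cast e1
    rw [h4] at e1'
    have e2 : (r : ℤ) * (k * s - 2) = 0 := by push_cast at e1'; linear_combination -e1'
    have e3 : (k : ℤ) * s = 2 := by
      rcases mul_eq_zero.mp e2 with h | h <;> omega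
    have e4 : (k : ℤ) ∣ 2 := ⟨s, e3.symm⟩
    have e5 : k ∣ 2 := by exact_mod_cast e4
    have e6 : k ≤ 2 := Nat.le_of_dvd (by norm_num) e5
    have e7 : k = 1 ∨ k = 2 := by omega
    rcases e7 with rfl | rfl
    · left; omega
    · right
      exact ⟨by omega, second hd (by omega) hid⟩

end Pool.Agent.Helper93.EB
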