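import Mathlib
import Pool.Agent.Helper93.EB.IdC

/-! The map `x ↦ -x + (2 (x.w) / w²) w` as a marking, and the criterion. -/

namespace Pool.Agent.Helper93.EB

variable {n γ m r k₀ : ℕ} {w : V}

/-- minus the reflection in `w` -/
noncomputable def reflw (n : ℕ) (m : ℂ) (w : V) (x : V) : V := -x + (bbf n x w / m) • w

theorem reflw_invol {m : ℂ} (hm : m ≠ 0) (hw : bbf n w w = 2 * m) (x : V) :
    reflw n m w (reflw n m w x) = x := by
  unfold reflw
  rw [bbf_add_left, bbf_neg_left, bbf_smul_left, hw]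
  have : ((-bbf n x w + bbf n x w / m * (2 * m)) / m) = bbf n x w / m := by field_simp; ring
  rw [this]
  module

/-- minus the reflection in `w`, as a linear automorphism -/
noncomputable def RE (n : ℕ) {m : ℂ} (w : V) (hm : m ≠ 0) (hw : bbf n w w = 2 * m) :
    V ≃ₗ[ℂ] V where
  toFun := reflw n m w
  invFun := reflw n m w
  left_inv := reflw_invol hm hw
  right_inv := reflw_invol hm hw
  map_add' x y := by
    unfold reflw
    rw [bbf_add_left, add_div]
    module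
  map_smul' c x := by
    unfold reflw
    rw [bbf_smul_left, mul_div_assoc, RingHom.id_apply]
    module

theorem RE_apply {m : ℂ} (hm : m ≠ 0) (hw : bbf n w w = 2 * m) (x : V) :
    RE n w hm hw x = -x + (bbf n x w / m) • w := rfl

theorem RE_isom {m : ℂ} (hm : m ≠ 0) (hw : bbf n w w = 2 * m) (x y : V) :
    bbf n (RE n w hm hw x) (RE n w hm hw y) = bbf n x y := by
  simp only [RE_apply, bbf_add_left, bbf_add_right, bbf_neg_left, bbf_neg_right,
    bbf_smul_left, bbf_smul_right, hw, bbf_comm n w y]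
  field_simp
  ring

theorem RE_fix {m : ℂ} (hm : m ≠ 0) (hw : bbf n w w = 2 * m) : RE n w hm hw w = w := by
  rw [RE_apply, hw]
  have : 2 * m / m = 2 := by field_simp
  rw [this]; module

theorem bbf_w_h (x : V) : bbf n x (wvec γ r k₀) =
    (γ : ℂ) * (bbf n x (hvec r k₀) + r * ((n : ℂ) - 1) * x.2.2) := by
  rw [bbf_wvec, bbf_hvec]

theorem wvec_two_eq : wvec 2 r k₀ = (2 : ℂ) • hvec r k₀ - (r : ℂ) • delta := by
  unfold wvec
  push_cast
  module

variable {κ ν : ℤ}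

theorem refl_mem_X (hr : (r : ℂ) ≠ 0) (hm : (m : ℂ) ≠ 0) (h1 : (m : ℂ) * κ = 2 * r)
    (h2 : 2 * κ * (k₀ : ℤ) = 1 + r * ν) {x : V} (hx : x ∈ Lam) :
    reflw n m (wvec 2 r k₀) x ∈ LamX n r k₀ := by
  obtain ⟨s, hs⟩ := bbf_int n hx (hvec_mem r k₀)
  obtain ⟨d, hd⟩ := hx.2.2
  have h2c : 2 * (κ : ℂ) * k₀ = 1 + r * ν := by exact_mod_cast h2
  refine LamX_iff.mpr ⟨-2 * κ * (s + r * ((n : ℤ) - 1) * d),
    ν * s + (1 + r * ν) * ((n : ℤ) - 1) * d,
    -x - ((κ * (s + r * ((n : ℤ) - 1) * d) : ℤ) : ℂ) • delta,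
    Lam_sub (Lam_neg hx) (Lam_zsmul _ delta_mem), ?_, ?_⟩
  · rw [bbf_sub_left, bbf_neg_left, bbf_smul_left, bbf_comm n delta, bbf_h_delta, hs]
    push_cast
    linear_combination ((s : ℂ) + r * ((n : ℂ) - 1) * d) * h2c
  · unfold reflw
    rw [bbf_w_h, hs, hd, wvec_two_eq]
    have e : (((2 : ℕ) : ℂ) * ((s : ℂ) + r * ((n : ℂ) - 1) * d) / m) =
        (κ : ℂ) * (s + r * ((n : ℂ) - 1) * d) / r := by
      rw [div_eq_div_iff hm hr]
      push_cast
      linear_combination (-((s : ℂ) + r * ((n : ℂ) - 1) * d)) * h1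
    rw [e, smul_sub, smul_smul, smul_smul, div_mul_cancel₀ _ hr]
    push_cast
    have e2 : (-2 * (κ : ℂ) * (s + r * ((n : ℂ) - 1) * d)) / r =
        -((κ : ℂ) * (s + r * ((n : ℂ) - 1) * d) / r * 2) := by ring
    rw [e2]
    module

theorem refl_mem_L (hr : (r : ℂ) ≠ 0) (hm : (m : ℂ) ≠ 0) (h1 : (m : ℂ) * κ = 2 * r)
    (h2 : 2 * κ * (k₀ : ℤ) = 1 + r * ν) {y : V} (hy : y ∈ LamX n r k₀) :
    reflw n m (wvec 2 r k₀) y ∈ Lam := by
  obtain ⟨a, b, l, hl, hlh, rfl⟩ := LamX_iff.mp hy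
  obtain ⟨d, hd⟩ := hl.2.2
  have h2c : 2 * (κ : ℂ) * k₀ = 1 + r * ν := by exact_mod_cast h2
  have hyh : bbf n (l - ((a : ℂ) / r) • hvec r k₀) (hvec r k₀) = b * r - a * k₀ := by
    rw [bbf_sub_left, bbf_smul_left, bbf_h_h, hlh]
    field_simp
    ring
  have hyd : (l - ((a : ℂ) / r) • hvec r k₀).2.2 = d := by
    rw [sub_h_snd, hd]
  have key : reflw n m (wvec 2 r k₀) (l - ((a : ℂ) / r) • hvec r k₀) =
      (-l + ((2 * κ * b - ν * a + 2 * κ * ((n : ℤ) - 1) * d : ℤ) : ℂ) • hvec r k₀)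
        - ((κ * (b * r - a * k₀ + r * ((n : ℤ) - 1) * d) : ℤ) : ℂ) • delta := by
    unfold reflw
    rw [bbf_w_h, hyh, hyd, wvec_two_eq]
    have e : (((2 : ℕ) : ℂ) * ((b : ℂ) * r - a * k₀ + r * ((n : ℂ) - 1) * d) / m) =
        (κ : ℂ) * (b * r - a * k₀ + r * ((n : ℂ) - 1) * d) / r := by
      rw [div_eq_div_iff hm hr]
      push_cast
      linear_combination (-((b : ℂ) * r - a * k₀ + r * ((n : ℂ) - 1) * d)) * h1
    rw [e, smul_sub, smul_smul, smul_smul, div_mul_cancel₀ _ hr]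
    have e2 : ((2 * κ * b - ν * a + 2 * κ * ((n : ℤ) - 1) * d : ℤ) : ℂ) =
        (a : ℂ) / r + (κ : ℂ) * (b * r - a * k₀ + r * ((n : ℂ) - 1) * d) / r * 2 := by
      push_cast
      field_simp
      linear_combination (a : ℂ) * h2c
    rw [e2]
    push_cast
    module
  rw [key]
  exact Lam_sub (Lam_add (Lam_neg hl) (Lam_zsmul _ (hvec_mem r k₀))) (Lam_zsmul _ delta_mem)

theorem RE_marking (hn : 2 ≤ n) (hr : (r : ℂ) ≠ 0) (hm : (m : ℂ) ≠ 0)
    (hw : bbf n (wvec 2 r k₀) (wvec 2 r k₀) = 2 * m) (h1 : (m : ℂ) * κ = 2 * r)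
    (h2 : 2 * κ * (k₀ : ℤ) = 1 + r * ν) {ε : ℤ} (hε : ε = 1 ∨ ε = -1) {t : ℤ}
    (ht : -(1 + (ε : ℂ)) / (2 * ((n : ℂ) - 1)) - κ * r / 2 = t) :
    IsMarkingE n r k₀ (wvec 2 r k₀) (RE n (wvec 2 r k₀) hm hw) := by
  have hN := nm1_ne hn
  refine marking_of_dd (RE_isom hm hw) (RE_fix hm hw) ?_ hε ?_
  · apply Set.Subset.antisymm
    · rintro _ ⟨x, hx, rfl⟩
      exact refl_mem_X hr hm h1 h2 hx
    · intro y hy
      refine ⟨RE n (wvec 2 r k₀) hm hw y, refl_mem_L hr hm h1 h2 hy, ?_⟩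
      exact reflw_invol hm hw y
  · have e0 : bbf n (dd n) (wvec 2 r k₀) = r := by
      rw [bbf_w_h]
      unfold dd
      rw [bbf_smul_left, bbf_comm n delta, bbf_h_delta]
      have : ((1 / (2 * ((n : ℂ) - 1))) • delta).2.2 = 1 / (2 * ((n : ℂ) - 1)) := by
        simp [delta]
      rw [this]
      push_cast
      field_simp
      ring
    have e1 : (r : ℂ) / m = κ / 2 := by
      rw [div_eq_div_iff hm two_ne_zero]
      linear_combination -h1
    have key : RE n (wvec 2 r k₀) hm hw (dd n) - (ε : ℂ) • dd n =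
        (κ : ℂ) • hvec r k₀ + (t : ℂ) • delta := by
      rw [RE_apply, e0, e1, wvec_two_eq, ← ht]
      unfold dd
      rw [neg_div]
      have e3 : -((1 + (ε : ℂ)) / (2 * ((n : ℂ) - 1))) - κ * r / 2 =
        - (1 / (2 * ((n : ℂ) - 1))) - ε * (1 / (2 * ((n : ℂ) - 1))) - κ / 2 * r := by ring
      rw [e3]
      module
    rw [key]
    refine LamX_iff.mpr ⟨0, 2 * κ * k₀, _,
      Lam_add (Lam_zsmul κ (hvec_mem r k₀)) (Lam_zsmul t delta_mem), ?_, ?_⟩
    · rw [bbf_add_left, bbf_smul_left, bbf_smul_left, bbf_h_h, bbf_comm n delta, bbf_h_delta]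
      push_cast
      ring
    · simp

/-- if minus the reflection in `w` is a marking then the self-map is the identity -/
theorem id_of_RE (hn : 2 ≤ n) (hm : (m : ℂ) ≠ 0)
    (hw : bbf n (wvec 2 r k₀) (wvec 2 r k₀) = 2 * m)
    (hM : IsMarkingE n r k₀ (wvec 2 r k₀) (RE n (wvec 2 r k₀) hm hw))
    {μ : PeriodSpace n (wvec 2 r k₀) → PeriodSpace n (wvec 2 r k₀)}
    (hμ : IsPeriodMap n r k₀ (wvec 2 r k₀) μ) : ∀ p, μ p = p := by
  intro p
  induction p using Quot.ind with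
  | mk σ =>
    have h1 := hμ _ (marking_ofE hM) σ (act hM σ) (by
      change RE n (wvec 2 r k₀) hm hw ((RE n (wvec 2 r k₀) hm hw).symm (σ : V)) = σ
      rw [LinearEquiv.apply_symm_apply])
    rw [h1]
    refine (Quot.sound ⟨_, mon_ofE (mon_refl hn), -1, by norm_num, ?_⟩ : _ = _).symm
    change (RE n (wvec 2 r k₀) hm hw).symm (σ : V) = (-1 : ℂ) • (σ : V)
    rw [LinearEquiv.symm_apply_eq, map_smul, RE_apply, σ.2.2.2]
    simp

/-- The self-map of the period space is the identity exactly for `γ = 2`, `k = 1` and for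
`γ = 2`, `k = 2`, `n = 3`. -/
theorem id_iff (hd : IsData n γ m r k₀)
    {μ : PeriodSpace n (wvec γ r k₀) → PeriodSpace n (wvec γ r k₀)}
    (hμ : IsPeriodMap n r k₀ (wvec γ r k₀) μ) :
    (∀ p, μ p = p) ↔ γ = 2 ∧ (m = r ∨ (m = 2 * r ∧ n = 3)) := by
  constructor
  · intro hid
    exact id_imp hd (fun σ hσ => id_gives hd hμ hid hσ)
  · rintro ⟨rfl, h⟩
    have hw := wvec_sq hd
    obtain ⟨hn, hm1, h' | h'⟩ := hd
    · omega
    · obtain ⟨_, h1, h2, h3, k, h4, h5, h6⟩ := h'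
      have hr0 : (r : ℂ) ≠ 0 := by
        have : r ≠ 0 := by omega
        exact_mod_cast this
      have hm0 : (m : ℂ) ≠ 0 := by
        have : m ≠ 0 := by omega
        exact_mod_cast this
      have hN := nm1_ne hn
      rcases h with h | ⟨h, rfl⟩
      · have hk : k = 1 := by
          have : r * k = r * 1 := by rw [← h4, h, mul_one]
          exact Nat.eq_of_mul_eq_mul_left (by omega) this
        subst hk
        refine id_of_RE hn hm0 hw (RE_marking hn hr0 hm0 hw (κ := 2) (ν := (n : ℤ) - 1)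
          (ε := -1) (t := -r) ?_ ?_ (Or.inr rfl) ?_) hμ
        · rw [h]; push_cast; ring
        · rw [show (2 : ℤ) * 2 * (k₀ : ℤ) = 4 * k₀ by ring, h6]; push_cast; ring
        · push_cast; ring
      · have hk : k = 2 := by
          have : r * k = r * 2 := by rw [← h4, h]; ring
          exact Nat.eq_of_mul_eq_mul_left (by omega) this
        subst hk
        obtain ⟨s, hs⟩ := h2
        have hsc : (r : ℂ) = 2 * s + 1 := by exact_mod_cast hs
        refine id_of_RE hn hm0 hw (RE_marking hn hr0 hm0 hw (κ := 1) (ν := 1)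
          (ε := 1) (t := -(s + 1)) ?_ ?_ (Or.inl rfl) ?_) hμ
        · rw [h]; push_cast; ring
        · push_cast at h6; omega
        · push_cast; rw [hsc]; ring

end Pool.Agent.Helper93.EB
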